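import Mathlib

set_option autoImplicit false

/-!
# Slices of families of lines: the recursion over the coordinates
-/

namespace Pool.Agent.TH304.KF

open MeasureTheory Set
open scoped ENNReal

/-- the position at height `t` of the line in the plane with code `c = (slope, foot)` -/
def ln (c : ℤ × ℤ) (t : ℝ) : ℝ := (c.2 : ℝ) + t * (c.1 : ℝ)

lemma measurable_ln (c : ℤ × ℤ) : Measurable (ln c) := by
  unfold ln; fun_prop

/-- indicator function of the strip of half-width `L` around the line with code `c` -/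
noncomputable def ind (L : ℝ) (c : ℤ × ℤ) (y t : ℝ) : ℝ≥0∞ := if |y - ln c t| ≤ L then 1 else 0

lemma measurable_ind (L : ℝ) (c : ℤ × ℤ) : Measurable (fun p : ℝ × ℝ => ind L c p.1 p.2) := by
  unfold ind
  apply Measurable.ite
  · exact measurableSet_le (by have := measurable_ln c; fun_prop) (by fun_prop)
  · fun_prop
  · fun_prop

lemma ind_le_one (L : ℝ) (c : ℤ × ℤ) (y t : ℝ) : ind L c y t ≤ 1 := by
  unfold ind; split_ifs <;> simp

/-- multiplicity function of a family of codes -/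
noncomputable def cnt (L : ℝ) {k : ℕ} (V : Finset (Fin k → ℤ × ℤ)) (y : Fin k → ℝ) (t : ℝ) : ℝ≥0∞ :=
  ∑ c ∈ V, ∏ j, ind L (c j) (y j) t

lemma measurable_cnt (L : ℝ) {k : ℕ} (V : Finset (Fin k → ℤ × ℤ)) :
    Measurable (fun p : (Fin k → ℝ) × ℝ => cnt L V p.1 p.2) := by
  unfold cnt
  apply Finset.measurable_sum
  intro c _
  apply Finset.measurable_prod
  intro j _
  exact (measurable_ind L (c j)).comp (by fun_prop : Measurable fun p : (Fin k → ℝ) × ℝ => (p.1 j, p.2))

/-- `q`-th power of the `L^q` norm of the slice at height `t` -/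
noncomputable def sl (L q : ℝ) {k : ℕ} (V : Finset (Fin k → ℤ × ℤ)) (t : ℝ) : ℝ≥0∞ :=
  ∫⁻ y : Fin k → ℝ, cnt L V y t ^ q

lemma measurable_sl (L q : ℝ) {k : ℕ} (V : Finset (Fin k → ℤ × ℤ)) : Measurable (sl L q V) := by
  unfold sl
  apply Measurable.lintegral_prod_left'
    (f := fun p : (Fin k → ℝ) × ℝ => cnt L V p.1 p.2 ^ q)
  exact (measurable_cnt L V).pow_const q

/-- the codes in the fibre over `v` -/
def fib {k : ℕ} (V : Finset (Fin (k + 1) → ℤ × ℤ)) (v : ℤ × ℤ) : Finset (Fin k → ℤ × ℤ) :=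
  (V.filter fun c => c 0 = v).image fun c j => c j.succ

/-- the first entries -/
def root {k : ℕ} (V : Finset (Fin (k + 1) → ℤ × ℤ)) : Finset (ℤ × ℤ) := V.image fun c => c 0

lemma mem_fib {k : ℕ} {V : Finset (Fin (k + 1) → ℤ × ℤ)} {v : ℤ × ℤ} {c : Fin k → ℤ × ℤ} :
    c ∈ fib V v ↔ ∃ c' ∈ V, c' 0 = v ∧ (fun j : Fin k => c' j.succ) = c := by
  unfold fib
  simp only [Finset.mem_image, Finset.mem_filter]
  constructor
  · rintro ⟨c', ⟨h1, h2⟩, h3⟩
    exact ⟨c', h1, h2, h3⟩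
  · rintro ⟨c', h1, h2, h3⟩
    exact ⟨c', ⟨h1, h2⟩, h3⟩

lemma tail_injOn {k : ℕ} (V : Finset (Fin (k + 1) → ℤ × ℤ)) (v : ℤ × ℤ) :
    Set.InjOn (fun (c : Fin (k + 1) → ℤ × ℤ) (j : Fin k) => c j.succ)
      (V.filter fun c => c 0 = v : Finset (Fin (k + 1) → ℤ × ℤ)) := by
  intro c hc c' hc' h
  simp only [Finset.coe_filter, Set.mem_ofPred_eq] at hc hc'
  funext j
  refine Fin.cases ?_ (fun j => ?_) j
  · rw [hc.2, hc'.2]
  · exact congrFun h j

lemma card_fib {k : ℕ} (V : Finset (Fin (k + 1) → ℤ × ℤ)) :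
    ∑ v ∈ root V, (fib V v).card = V.card := by
  rw [Finset.card_eq_sum_card_image (fun c : Fin (k + 1) → ℤ × ℤ => c 0) V]
  refine Finset.sum_congr rfl fun v _ => ?_
  unfold fib
  rw [Finset.card_image_of_injOn (tail_injOn V v)]

lemma card_fib_pos {k : ℕ} {V : Finset (Fin (k + 1) → ℤ × ℤ)} {v : ℤ × ℤ} (hv : v ∈ root V) :
    0 < (fib V v).card := by
  unfold root at hv
  obtain ⟨c, hc, hcv⟩ := Finset.mem_image.1 hv
  exact Finset.card_pos.2 ⟨_, mem_fib.2 ⟨c, hc, hcv, rfl⟩⟩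

lemma cnt_succ (L : ℝ) {k : ℕ} (V : Finset (Fin (k + 1) → ℤ × ℤ)) (y : Fin (k + 1) → ℝ) (t : ℝ) :
    cnt L V y t = ∑ v ∈ root V, ind L v (y 0) t * cnt L (fib V v) (fun j => y j.succ) t := by
  unfold cnt
  rw [← Finset.sum_fiberwise_of_maps_to (s := V) (t := root V) (g := fun c => c 0)
    (fun c hc => Finset.mem_image_of_mem _ hc)]
  refine Finset.sum_congr rfl fun v _ => ?_
  unfold fib
  rw [Finset.sum_image (tail_injOn V v), Finset.mul_sum]
  refine Finset.sum_congr rfl fun c hc => ?_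
  rw [Fin.prod_univ_succ, (Finset.mem_filter.1 hc).2]

/-- weighted Hölder inequality -/
lemma holder_weight {ι : Type} (R : Finset ι) (q : ℝ) (hq : 1 ≤ q) (u x α : ι → ℝ≥0∞)
    (hα0 : ∀ v ∈ R, α v ≠ 0) (hα : ∀ v ∈ R, α v ≠ ∞) :
    (∑ v ∈ R, u v * x v) ^ q ≤
      (∑ v ∈ R, u v * α v) ^ (q - 1) * ∑ v ∈ R, u v * (α v ^ (1 - q) * x v ^ q) := by
  have hq0 : 0 < q := by linarith
  have h1 := ENNReal.inner_le_weight_mul_Lp_of_nonneg R hq (fun v => u v * α v)
    (fun v => x v / α v)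
  have h2 : ∑ v ∈ R, u v * α v * (x v / α v) = ∑ v ∈ R, u v * x v := by
    refine Finset.sum_congr rfl fun v hv => ?_
    rw [mul_assoc, ENNReal.mul_div_cancel (hα0 v hv) (hα v hv)]
  have h3 : ∑ v ∈ R, u v * α v * (x v / α v) ^ q = ∑ v ∈ R, u v * (α v ^ (1 - q) * x v ^ q) := by
    refine Finset.sum_congr rfl fun v hv => ?_
    rw [mul_assoc, ENNReal.div_rpow_of_nonneg _ _ hq0.le, ENNReal.rpow_sub _ _ (hα0 v hv) (hα v hv),
      ENNReal.rpow_one]
    congr 1
    rw [ENNReal.div_eq_inv_mul, ENNReal.div_eq_inv_mul]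
    ring
  rw [h2, h3] at h1
  calc (∑ v ∈ R, u v * x v) ^ q ≤ ((∑ v ∈ R, u v * α v) ^ (1 - q⁻¹) *
        (∑ v ∈ R, u v * (α v ^ (1 - q) * x v ^ q)) ^ q⁻¹) ^ q := ENNReal.rpow_le_rpow h1 hq0.le
    _ = _ := by
        rw [ENNReal.mul_rpow_of_nonneg _ _ hq0.le, ← ENNReal.rpow_mul, ← ENNReal.rpow_mul,
          inv_mul_cancel₀ hq0.ne', ENNReal.rpow_one]
        congr 2
        field_simp

/-- overlap of two lines at height `t` -/
noncomputable def ov (L : ℝ) (v w : ℤ × ℤ) (t : ℝ) : ℝ≥0∞ :=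
  if |ln v t - ln w t| ≤ 2 * L then 1 else 0

lemma measurable_ov (L : ℝ) (v w : ℤ × ℤ) : Measurable (ov L v w) := by
  unfold ov
  apply Measurable.ite
  · exact measurableSet_le (by have := measurable_ln v; have := measurable_ln w; fun_prop) (by fun_prop)
  · fun_prop
  · fun_prop

/-- weighted number of lines that meet the line `v` at height `t` -/
noncomputable def wt (L : ℝ) (R : Finset (ℤ × ℤ)) (α : ℤ × ℤ → ℝ≥0∞) (v : ℤ × ℤ) (t : ℝ) : ℝ≥0∞ :=
  ∑ w ∈ R, ov L v w t * α w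

lemma measurable_wt (L : ℝ) (R : Finset (ℤ × ℤ)) (α : ℤ × ℤ → ℝ≥0∞) (v : ℤ × ℤ) :
    Measurable (wt L R α v) := by
  unfold wt
  apply Finset.measurable_sum
  intro w _
  exact (measurable_ov L v w).mul_const _

lemma cnt_pow_le (L : ℝ) {q : ℝ} (hq : 1 ≤ q) {k : ℕ} (V : Finset (Fin (k + 1) → ℤ × ℤ))
    (α : ℤ × ℤ → ℝ≥0∞) (hα0 : ∀ v ∈ root V, α v ≠ 0) (hα : ∀ v ∈ root V, α v ≠ ∞)
    (y : Fin (k + 1) → ℝ) (t : ℝ) :
    cnt L V y t ^ q ≤ ∑ v ∈ root V, (wt L (root V) α v t ^ (q - 1) * α v ^ (1 - q)) *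
      (ind L v (y 0) t * cnt L (fib V v) (fun j => y j.succ) t ^ q) := by
  rw [cnt_succ]
  refine (holder_weight (root V) q hq _ _ α hα0 hα).trans ?_
  rw [Finset.mul_sum]
  refine Finset.sum_le_sum fun v _ => ?_
  by_cases hv : |y 0 - ln v t| ≤ L
  · have h1 : ∑ w ∈ root V, ind L w (y 0) t * α w ≤ wt L (root V) α v t := by
      unfold wt
      refine Finset.sum_le_sum fun w _ => ?_
      gcongr
      unfold ind ov
      split_ifs with h1 h2
      · exact le_rfl
      · exfalso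
        apply h2
        have := abs_sub_abs_le_abs_sub (ln v t - ln w t) 0
        have h3 : |ln v t - ln w t| ≤ |y 0 - ln v t| + |y 0 - ln w t| := by
          have h4 := abs_sub (y 0 - ln w t) (y 0 - ln v t)
          have e1 : (y 0 - ln w t) - (y 0 - ln v t) = ln v t - ln w t := by ring
          rw [e1] at h4
          linarith
        linarith
      · exact bot_le
      · exact le_rfl
    calc (∑ w ∈ root V, ind L w (y 0) t * α w) ^ (q - 1) *
          (ind L v (y 0) t * (α v ^ (1 - q) * cnt L (fib V v) (fun j => y j.succ) t ^ q)) ≤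
        wt L (root V) α v t ^ (q - 1) *
          (ind L v (y 0) t * (α v ^ (1 - q) * cnt L (fib V v) (fun j => y j.succ) t ^ q)) := by
          gcongr
      _ = _ := by ring
  · have : ind L v (y 0) t = 0 := by unfold ind; rw [if_neg hv]
    rw [this]
    simp

lemma lintegral_ind (L : ℝ) (v : ℤ × ℤ) (t : ℝ) : ∫⁻ y, ind L v y t = ENNReal.ofReal (2 * L) := by
  have h : (fun y => ind L v y t) = (Icc (ln v t - L) (ln v t + L)).indicator (fun _ => 1) := by
    funext y
    unfold ind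
    rw [Set.indicator_apply]
    congr 1
    rw [abs_le, mem_Icc]
    apply propext
    constructor
    · rintro ⟨h1, h2⟩; constructor <;> linarith
    · rintro ⟨h1, h2⟩; constructor <;> linarith
  rw [h, lintegral_indicator measurableSet_Icc, lintegral_one, Measure.restrict_apply_univ,
    Real.volume_Icc]
  congr 1; ring

lemma lintegral_split {k : ℕ} {F : ℝ → ℝ≥0∞} {G : (Fin k → ℝ) → ℝ≥0∞} (hF : Measurable F)
    (hG : Measurable G) : ∫⁻ y : Fin (k + 1) → ℝ, F (y 0) * G (fun j => y j.succ) =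
      (∫⁻ x, F x) * ∫⁻ y, G y := by
  have h := (volume_preserving_piFinSuccAbove (fun _ : Fin (k + 1) => ℝ) 0)
  have h2 := h.lintegral_comp (f := fun p : ℝ × (Fin k → ℝ) => F p.1 * G p.2)
    ((hF.comp measurable_fst).mul (hG.comp measurable_snd))
  rw [← lintegral_prod_mul hF.aemeasurable hG.aemeasurable]
  rw [← Measure.volume_eq_prod]
  rw [← h2]
  rfl

/-- **The recursion.** -/
lemma sl_succ_le {L : ℝ} {q : ℝ} (hq : 1 ≤ q) {k : ℕ} (V : Finset (Fin (k + 1) → ℤ × ℤ))
    (α : ℤ × ℤ → ℝ≥0∞) (hα0 : ∀ v ∈ root V, α v ≠ 0) (hα : ∀ v ∈ root V, α v ≠ ∞) (t : ℝ) :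
    sl L q V t ≤ ENNReal.ofReal (2 * L) * ∑ v ∈ root V,
      (wt L (root V) α v t ^ (q - 1) * α v ^ (1 - q)) * sl L q (fib V v) t := by
  have hmeas : ∀ v, Measurable (fun y : Fin k → ℝ => cnt L (fib V v) y t ^ q) := by
    intro v
    exact ((measurable_cnt L (fib V v)).comp
      (measurable_id.prodMk measurable_const : Measurable fun y : Fin k → ℝ => (y, t))).pow_const q
  have hmeas2 : ∀ v, Measurable (fun y : ℝ => ind L v y t) := by
    intro v
    exact (measurable_ind L v).comp (measurable_id.prodMk measurable_const)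
  calc sl L q V t ≤ ∫⁻ y : Fin (k + 1) → ℝ, ∑ v ∈ root V,
        (wt L (root V) α v t ^ (q - 1) * α v ^ (1 - q)) *
        (ind L v (y 0) t * cnt L (fib V v) (fun j => y j.succ) t ^ q) :=
        lintegral_mono fun y => cnt_pow_le L hq V α hα0 hα y t
    _ = ∑ v ∈ root V, (wt L (root V) α v t ^ (q - 1) * α v ^ (1 - q)) *
        ∫⁻ y : Fin (k + 1) → ℝ, (ind L v (y 0) t * cnt L (fib V v) (fun j => y j.succ) t ^ q) := by
        have hm : ∀ v, Measurable (fun y : Fin (k + 1) → ℝ =>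
            (ind L v (y 0) t * cnt L (fib V v) (fun j => y j.succ) t ^ q)) := by
          intro v
          exact ((hmeas2 v).comp (measurable_pi_apply 0)).mul
            ((hmeas v).comp (measurable_pi_lambda _ fun j => measurable_pi_apply j.succ))
        rw [lintegral_finsetSum _ (fun v _ => (hm v).const_mul _)]
        refine Finset.sum_congr rfl fun v _ => ?_
        rw [lintegral_const_mul _ (hm v)]
    _ = _ := by
        rw [Finset.mul_sum]
        refine Finset.sum_congr rfl fun v _ => ?_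
        rw [lintegral_split (hmeas2 v) (hmeas v), lintegral_ind]
        unfold sl
        ring

lemma sl_zero (L : ℝ) {q : ℝ} (hq : 0 < q) (V : Finset (Fin 0 → ℤ × ℤ)) (t : ℝ) :
    sl L q V t = (V.card : ℝ≥0∞) := by
  unfold sl
  have h1 : ∀ y : Fin 0 → ℝ, cnt L V y t ^ q = (V.card : ℝ≥0∞) := by
    intro y
    unfold cnt
    simp only [Finset.univ_eq_empty, Finset.prod_empty, Finset.sum_const, nsmul_eq_mul, mul_one]
    have hc : V.card = 0 ∨ V.card = 1 := by
      have : V.card ≤ 1 := Finset.card_le_one.2 fun a _ b _ => Subsingleton.elim a b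
      omega
    rcases hc with h | h
    · rw [h]; simp [ENNReal.zero_rpow_of_pos hq]
    · rw [h]; simp
  rw [lintegral_congr h1, lintegral_const]
  have : (volume : Measure (Fin 0 → ℝ)) univ = 1 := by
    rw [volume_pi, Measure.pi_univ]
    simp
  rw [this, mul_one]

end Pool.Agent.TH304.KF
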