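import Pool.Agent.TH304.KF.Hls
import Pool.Agent.TH304.KF.Slice

set_option autoImplicit false

/-!
# The inequality for families of codes
-/

namespace Pool.Agent.TH304.KF

open MeasureTheory Set
open scoped ENNReal

/-- multiplicity bounds along the tree -/
def Mult : (k : ℕ) → Finset (Fin k → ℤ × ℤ) → (Fin k → ℕ) → Prop
  | 0, _, _ => True
  | k + 1, V, M => (∀ z : ℤ, ((root V).filter fun v => v.1 = z).card ≤ M 0) ∧
      ∀ v, Mult k (fib V v) (fun j => M j.succ)

/-- finite Minkowski inequality -/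
lemma lp_sum {ι : Type} {μ : Measure ℝ} {p : ℝ} (hp : 1 ≤ p) (R : Finset ι) (f : ι → ℝ → ℝ≥0∞)
    (hf : ∀ i, Measurable (f i)) :
    (∫⁻ t, (∑ i ∈ R, f i t) ^ p ∂μ) ^ (1 / p) ≤ ∑ i ∈ R, (∫⁻ t, f i t ^ p ∂μ) ^ (1 / p) := by
  classical
  have hp0 : 0 < p := by linarith
  induction R using Finset.induction_on with
  | empty =>
    simp only [Finset.sum_empty]
    rw [ENNReal.zero_rpow_of_pos hp0]
    simp [hp0]
  | insert a s ha ih =>
    simp only [Finset.sum_insert ha]
    have h := ENNReal.lintegral_Lp_add_le (μ := μ) (f := f a) (g := fun t => ∑ i ∈ s, f i t)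
      (hf a).aemeasurable (Finset.measurable_sum s fun i _ => hf i).aemeasurable hp
    exact h.trans (add_le_add le_rfl ih)

/-- the `L^p` norm of the weighted number of incidences -/
lemma wt_norm {μ : Measure ℝ} {L C1 p : ℝ} (hC1 : 0 ≤ C1) (hp : 1 ≤ p)
    (hov : ∀ v w, ∫⁻ t, ov L v w t ∂μ ≤ ENNReal.ofReal (C1 * (1 + |((w.1 - v.1 : ℤ) : ℝ)|)⁻¹))
    (R : Finset (ℤ × ℤ)) (g : ℤ × ℤ → ℝ) (hg : ∀ v, 0 ≤ g v) (v : ℤ × ℤ) :
    (∫⁻ t, wt L R (fun v => ENNReal.ofReal (g v)) v t ^ p ∂μ) ^ (1 / p) ≤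
      ENNReal.ofReal (C1 ^ (1 / p) * ∑ w ∈ R, g w * ker (1 / p) (w.1 - v.1)) := by
  have hp0 : 0 < p := by linarith
  unfold wt
  refine (lp_sum hp R (fun w t => ov L v w t * ENNReal.ofReal (g w))
    (fun w => (measurable_ov L v w).mul_const _)).trans ?_
  rw [Finset.mul_sum, ENNReal.ofReal_sum_of_nonneg (fun w _ => by
    have := hg w; have := ker_nonneg (1 / p) (w.1 - v.1); positivity)]
  refine Finset.sum_le_sum fun w _ => ?_
  have h1 : ∀ t, (ov L v w t * ENNReal.ofReal (g w)) ^ p = ov L v w t * ENNReal.ofReal (g w) ^ p := by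
    intro t
    rw [ENNReal.mul_rpow_of_nonneg _ _ hp0.le]
    congr 1
    unfold ov
    split_ifs
    · simp
    · rw [ENNReal.zero_rpow_of_pos hp0]
  rw [lintegral_congr h1, lintegral_mul_const _ (measurable_ov L v w),
    ENNReal.mul_rpow_of_nonneg _ _ (by positivity), ← ENNReal.rpow_mul, mul_one_div_cancel hp0.ne',
    ENNReal.rpow_one]
  calc (∫⁻ t, ov L v w t ∂μ) ^ (1 / p) * ENNReal.ofReal (g w)
      ≤ (ENNReal.ofReal (C1 * (1 + |((w.1 - v.1 : ℤ) : ℝ)|)⁻¹)) ^ (1 / p) * ENNReal.ofReal (g w) := by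
        gcongr
        exact hov v w
    _ = ENNReal.ofReal (C1 ^ (1 / p) * (g w * ker (1 / p) (w.1 - v.1))) := by
        rw [ENNReal.ofReal_rpow_of_nonneg (by positivity) (by positivity),
          ← ENNReal.ofReal_mul (by positivity)]
        congr 1
        rw [Real.mul_rpow hC1 (by positivity), ker, Real.inv_rpow (by positivity),
          ← Real.rpow_neg (by positivity)]
        ring

/-- the parameters -/
structure Par (m : ℕ) (L q C1 : ℝ) (μ : Measure ℝ) : Prop where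
  hm : 1 ≤ m
  hL : 0 ≤ L
  hq : 1 + 1 / ((m : ℝ) + 1) < q
  hq2 : q ≤ 2
  hC1 : 0 ≤ C1
  hov : ∀ v w : ℤ × ℤ,
    ∫⁻ t, ov L v w t ∂μ ≤ ENNReal.ofReal (C1 * (1 + |((w.1 - v.1 : ℤ) : ℝ)|)⁻¹)

/-- One step of the recursion, after integration. `d = m + 1`. -/
lemma step {m : ℕ} {L q C1 : ℝ} {μ : Measure ℝ} (P : Par m L q C1 μ) {C2 : ℝ} (hC2 : 0 < C2)
    (hhls : ∀ (ι : Type) [DecidableEq ι] (R : Finset ι) (a : ι → ℤ) (g : ι → ℝ),
      (∀ v ∈ R, 0 < g v) → ∀ M : ℕ, (∀ z, (R.filter fun v => a v = z).card ≤ M) →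
      ∑ v ∈ R, g v * (∑ w ∈ R, g w * ker (1 / (((m : ℝ) + 1) * (q - 1))) (a w - a v)) ^ (q - 1) ≤
        C2 * ((M : ℝ) ^ (1 / ((m : ℝ) + 1)) *
          (∑ v ∈ R, g v ^ (q / (q - 1 / ((m : ℝ) + 1)))) ^ (q - 1 / ((m : ℝ) + 1))))
    {k : ℕ} (V : Finset (Fin (k + 1) → ℤ × ℤ)) (M : Fin (k + 1) → ℕ) (hM : Mult (k + 1) V M)
    (h : ℝ → ℝ≥0∞) (hh : Measurable h) (B : ℝ≥0∞) (KK : ℝ) (hKK : 0 ≤ KK)
    (hrec : ∀ v ∈ root V, ∀ u : ℝ → ℝ≥0∞, Measurable u →
      ∫⁻ t, sl L q (fib V v) t * (u t ^ (q - 1) * h t) ∂μ ≤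
        ENNReal.ofReal (KK * ((fib V v).card : ℝ) ^ (q - 1 / ((m : ℝ) + 1))) * B *
          (∫⁻ t, (u t ^ (q - 1)) ^ ((m : ℝ) + 1) ∂μ) ^ (1 / ((m : ℝ) + 1))) :
    ∫⁻ t, sl L q V t * h t ∂μ ≤
      ENNReal.ofReal (2 * L * C1 ^ (1 / ((m : ℝ) + 1)) * C2 * KK *
        ((M 0 : ℝ) ^ (1 / ((m : ℝ) + 1)) * (V.card : ℝ) ^ (q - 1 / ((m : ℝ) + 1)))) * B := by
  have hm1 : (0 : ℝ) < (m : ℝ) + 1 := by positivity
  have hq1 : 1 < q := lt_trans (by have : 0 < 1 / ((m : ℝ) + 1) := by positivity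
                                   linarith) P.hq
  have hq0 : 0 < q - 1 := by linarith
  set d : ℝ := (m : ℝ) + 1 with hd
  set p : ℝ := d * (q - 1) with hp
  have hp1 : 1 < p := by
    have h1 := P.hq
    rw [hp]
    have h2 : 1 / d < q - 1 := by linarith
    rw [div_lt_iff₀ hm1] at h2
    linarith
  set Q : ℝ := q - 1 / d with hQ
  have hd1 : 1 / d ≤ 1 := by
    rw [div_le_one hm1, hd]; have : (0 : ℝ) ≤ m := Nat.cast_nonneg m; linarith
  have hQ0 : 0 < Q := by rw [hQ]; linarith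
  set g : ℤ × ℤ → ℝ := fun v => ((fib V v).card : ℝ) ^ (Q / q) with hg
  have hg0 : ∀ v, 0 ≤ g v := fun v => by positivity
  have hgpos : ∀ v ∈ root V, 0 < g v := fun v hv => by
    have : (0 : ℝ) < (fib V v).card := by exact_mod_cast card_fib_pos hv
    simp only [hg]; positivity
  set α : ℤ × ℤ → ℝ≥0∞ := fun v => ENNReal.ofReal (g v) with hα
  have hα0 : ∀ v ∈ root V, α v ≠ 0 := fun v hv => by
    simp only [hα, ne_eq, ENNReal.ofReal_eq_zero, not_le]; exact hgpos v hv
  have hαt : ∀ v ∈ root V, α v ≠ ∞ := fun v _ => ENNReal.ofReal_ne_top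
  set H : ℤ × ℤ → ℝ := fun v => ∑ w ∈ root V, g w * ker (1 / p) (w.1 - v.1) with hH
  have hH0 : ∀ v, 0 ≤ H v := fun v => Finset.sum_nonneg fun w _ =>
    mul_nonneg (hg0 w) (ker_nonneg _ _)
  have hwm : ∀ v, Measurable (wt L (root V) α v) := measurable_wt L (root V) α
  have hsm : ∀ v, Measurable (fun t => sl L q (fib V v) t *
      (wt L (root V) α v t ^ (q - 1) * h t)) := fun v =>
    (measurable_sl L q _).mul (((hwm v).pow_const _).mul hh)
  calc ∫⁻ t, sl L q V t * h t ∂μ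
      ≤ ∫⁻ t, ENNReal.ofReal (2 * L) * ∑ v ∈ root V, α v ^ (1 - q) *
        (sl L q (fib V v) t * (wt L (root V) α v t ^ (q - 1) * h t)) ∂μ := by
        refine lintegral_mono fun t => ?_
        refine (mul_le_mul_left (sl_succ_le (L := L) hq1.le V α hα0 hαt t) (h t)).trans
          (le_of_eq ?_)
        rw [mul_assoc, Finset.sum_mul]
        congr 1
        refine Finset.sum_congr rfl fun v _ => ?_
        ring
    _ = ENNReal.ofReal (2 * L) * ∑ v ∈ root V, α v ^ (1 - q) *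
        ∫⁻ t, sl L q (fib V v) t * (wt L (root V) α v t ^ (q - 1) * h t) ∂μ := by
        rw [lintegral_const_mul _ (Finset.measurable_sum _ fun v _ => (hsm v).const_mul _),
          lintegral_finsetSum _ (fun v _ => (hsm v).const_mul _)]
        congr 1
        refine Finset.sum_congr rfl fun v _ => ?_
        rw [lintegral_const_mul _ (hsm v)]
    _ ≤ ENNReal.ofReal (2 * L) * ∑ v ∈ root V, α v ^ (1 - q) *
        (ENNReal.ofReal (KK * ((fib V v).card : ℝ) ^ Q) * B *
          ENNReal.ofReal (C1 ^ (1 / d) * H v ^ (q - 1))) := by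
        gcongr with v hv
        refine (hrec v hv (wt L (root V) α v) (hwm v)).trans ?_
        gcongr
        have h1 : ∀ t, (wt L (root V) α v t ^ (q - 1)) ^ d = wt L (root V) α v t ^ p := by
          intro t
          rw [← ENNReal.rpow_mul, hp, mul_comm]
        rw [lintegral_congr h1]
        have h2 := wt_norm P.hC1 hp1.le P.hov (root V) g hg0 v
        have h3 : (∫⁻ t, wt L (root V) α v t ^ p ∂μ) ^ (1 / d) =
            ((∫⁻ t, wt L (root V) α v t ^ p ∂μ) ^ (1 / p)) ^ (q - 1) := by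
          rw [← ENNReal.rpow_mul]
          congr 1
          rw [hp]; field_simp
        rw [h3]
        refine (ENNReal.rpow_le_rpow h2 hq0.le).trans (le_of_eq ?_)
        have hC1 := P.hC1
        rw [ENNReal.ofReal_rpow_of_nonneg (mul_nonneg (by positivity) (hH0 v)) hq0.le]
        congr 1
        rw [Real.mul_rpow (by positivity) (hH0 v), ← Real.rpow_mul hC1]
        congr 2
        rw [hp]; field_simp
    _ = ENNReal.ofReal (2 * L) * ∑ v ∈ root V,
        ENNReal.ofReal (KK * C1 ^ (1 / d) * (g v * H v ^ (q - 1))) * B := by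
        congr 1
        refine Finset.sum_congr rfl fun v hv => ?_
        have hgv := hgpos v hv
        have hHv := hH0 v
        have hC1 := P.hC1
        have h1 : α v ^ (1 - q) = ENNReal.ofReal (g v ^ (1 - q)) := by
          simp only [hα]
          rw [ENNReal.ofReal_rpow_of_pos hgv]
        rw [h1]
        have h2 : ((fib V v).card : ℝ) ^ Q = g v ^ q := by
          simp only [hg]
          rw [← Real.rpow_mul (by positivity)]
          congr 1
          field_simp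
        rw [h2]
        calc _ = (ENNReal.ofReal (g v ^ (1 - q)) * ENNReal.ofReal (KK * g v ^ q) *
              ENNReal.ofReal (C1 ^ (1 / d) * H v ^ (q - 1))) * B := by ring
          _ = ENNReal.ofReal (g v ^ (1 - q) * (KK * g v ^ q) * (C1 ^ (1 / d) * H v ^ (q - 1))) * B := by
              rw [← ENNReal.ofReal_mul (by positivity), ← ENNReal.ofReal_mul (by positivity)]
          _ = _ := by
              congr 2
              have h3 : g v ^ (1 - q) * g v ^ q = g v := by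
                rw [← Real.rpow_add hgv]; simp
              calc _ = (g v ^ (1 - q) * g v ^ q) * (KK * C1 ^ (1 / d) * H v ^ (q - 1)) := by ring
                _ = _ := by rw [h3]; ring
    _ = ENNReal.ofReal (2 * L * (KK * C1 ^ (1 / d) * ∑ v ∈ root V, g v * H v ^ (q - 1))) * B := by
        have hsum : ∑ v ∈ root V, ENNReal.ofReal (KK * C1 ^ (1 / d) * (g v * H v ^ (q - 1))) =
            ENNReal.ofReal (KK * C1 ^ (1 / d) * ∑ v ∈ root V, g v * H v ^ (q - 1)) := by
          rw [Finset.mul_sum]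
          exact (ENNReal.ofReal_sum_of_nonneg fun v _ => mul_nonneg
            (mul_nonneg hKK (Real.rpow_nonneg P.hC1 _))
            (mul_nonneg (hg0 v) (Real.rpow_nonneg (hH0 v) _))).symm
        have h2 : ENNReal.ofReal (2 * L * (KK * C1 ^ (1 / d) * ∑ v ∈ root V, g v * H v ^ (q - 1))) =
            ENNReal.ofReal (2 * L) *
              ENNReal.ofReal (KK * C1 ^ (1 / d) * ∑ v ∈ root V, g v * H v ^ (q - 1)) :=
          ENNReal.ofReal_mul (mul_nonneg (by norm_num) P.hL)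
        rw [h2, ← hsum, mul_assoc, Finset.sum_mul]
    _ ≤ _ := by
        have hL := P.hL
        have hC1 := P.hC1
        gcongr ENNReal.ofReal ?_ * B
        have h1 := hhls (ℤ × ℤ) (root V) (fun v => v.1) g hgpos (M 0) hM.1
        have h2 : ∑ v ∈ root V, g v ^ (q / Q) = (V.card : ℝ) := by
          rw [← card_fib V]
          push_cast
          refine Finset.sum_congr rfl fun v _ => ?_
          simp only [hg]
          rw [← Real.rpow_mul (by positivity)]
          have : Q / q * (q / Q) = 1 := by field_simp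
          rw [this, Real.rpow_one]
        rw [h2] at h1
        calc 2 * L * (KK * C1 ^ (1 / d) * ∑ v ∈ root V, g v * H v ^ (q - 1))
            ≤ 2 * L * (KK * C1 ^ (1 / d) * (C2 * ((M 0 : ℝ) ^ (1 / d) * (V.card : ℝ) ^ Q))) := by
              gcongr
          _ = _ := by ring

/-- The inequality for subfamilies with fewer coordinates, with a test function. -/
lemma claim {m : ℕ} {L q C1 : ℝ} {μ : Measure ℝ} (P : Par m L q C1 μ) {C2 : ℝ} (hC2 : 0 < C2)
    (hhls : ∀ (ι : Type) [DecidableEq ι] (R : Finset ι) (a : ι → ℤ) (g : ι → ℝ),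
      (∀ v ∈ R, 0 < g v) → ∀ M : ℕ, (∀ z, (R.filter fun v => a v = z).card ≤ M) →
      ∑ v ∈ R, g v * (∑ w ∈ R, g w * ker (1 / (((m : ℝ) + 1) * (q - 1))) (a w - a v)) ^ (q - 1) ≤
        C2 * ((M : ℝ) ^ (1 / ((m : ℝ) + 1)) *
          (∑ v ∈ R, g v ^ (q / (q - 1 / ((m : ℝ) + 1)))) ^ (q - 1 / ((m : ℝ) + 1)))) :
    ∀ (k : ℕ), k ≤ m → ∀ (V : Finset (Fin k → ℤ × ℤ)) (M : Fin k → ℕ), Mult k V M →
      ∀ h : ℝ → ℝ≥0∞, Measurable h →
      ∫⁻ t, sl L q V t * h t ∂μ ≤
        ENNReal.ofReal ((2 * L * C1 ^ (1 / ((m : ℝ) + 1)) * C2) ^ k *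
          (∏ j, (M j : ℝ)) ^ (1 / ((m : ℝ) + 1)) * (V.card : ℝ) ^ (q - 1 / ((m : ℝ) + 1))) *
        (∫⁻ t, h t ^ (((m : ℝ) + 1) / ((m : ℝ) + 1 - k)) ∂μ) ^
          (1 / (((m : ℝ) + 1) / ((m : ℝ) + 1 - k))) := by
  have hm1 : (0 : ℝ) < (m : ℝ) + 1 := by positivity
  have hq1 : 1 < q := lt_trans (by have : 0 < 1 / ((m : ℝ) + 1) := by positivity
                                   linarith) P.hq
  have hq0 : 0 < q := by linarith
  have hQ0 : 0 < q - 1 / ((m : ℝ) + 1) := by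
    have : 1 / ((m : ℝ) + 1) ≤ 1 := by
      rw [div_le_one hm1]; have : (0 : ℝ) ≤ m := Nat.cast_nonneg m; linarith
    linarith
  intro k
  induction k with
  | zero =>
    intro _ V M _ h hh
    have h1 : ∀ t, sl L q V t = (V.card : ℝ≥0∞) := fun t => sl_zero L hq0 V t
    have hc : V.card = 0 ∨ V.card = 1 := by
      have : V.card ≤ 1 := Finset.card_le_one.2 fun a _ b _ => Subsingleton.elim a b
      omega
    simp only [h1]
    rw [lintegral_const_mul _ hh]
    have h2 : ((m : ℝ) + 1) / ((m : ℝ) + 1 - ((0 : ℕ) : ℝ)) = 1 := by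
      rw [Nat.cast_zero, sub_zero, div_self hm1.ne']
    rw [h2]
    simp only [ENNReal.rpow_one, one_div_one, pow_zero, Finset.univ_eq_empty, Finset.prod_empty,
      Real.one_rpow, one_mul]
    rcases hc with h0 | h0
    · rw [h0]; simp
    · rw [h0]; simp
  | succ k ih =>
    intro hk V M hM h hh
    have hkm : (k : ℝ) + 1 ≤ m := by exact_mod_cast hk
    have hk0 : (0 : ℝ) ≤ k := Nat.cast_nonneg k
    set P' : ℝ := ((m : ℝ) + 1) / ((m : ℝ) + 1 - k) with hP'
    set P1 : ℝ := ((m : ℝ) + 1) / ((m : ℝ) + 1 - ((k + 1 : ℕ) : ℝ)) with hP1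
    have hd1 : (0 : ℝ) < (m : ℝ) + 1 - k := by linarith
    have hd2 : (0 : ℝ) < (m : ℝ) + 1 - ((k + 1 : ℕ) : ℝ) := by push_cast; linarith
    have hPpos : 0 < P' := by rw [hP']; positivity
    have hPlt : P' < P1 := by
      rw [hP', hP1]
      apply div_lt_div_of_pos_left hm1 hd2
      push_cast; linarith
    have hPP : 1 / P' = 1 / P1 + 1 / ((m : ℝ) + 1) := by
      rw [hP', hP1]; field_simp; push_cast; ring
    have hC1 := P.hC1
    have hL := P.hL
    have key := step P hC2 hhls V M hM h hh ((∫⁻ t, h t ^ P1 ∂μ) ^ (1 / P1))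
      ((2 * L * C1 ^ (1 / ((m : ℝ) + 1)) * C2) ^ k *
          (∏ j : Fin k, (M j.succ : ℝ)) ^ (1 / ((m : ℝ) + 1))) (by positivity) (by
        intro v hv u hu
        have h1 := ih (by omega) (fib V v) (fun j => M j.succ) (hM.2 v)
          (fun t => u t ^ (q - 1) * h t) ((hu.pow_const _).mul hh)
        refine h1.trans ?_
        rw [mul_assoc (ENNReal.ofReal _)]
        refine mul_le_mul' (le_of_eq ?_) ?_
        · rfl
        · have h2 := ENNReal.lintegral_Lp_mul_le_Lq_mul_Lr hPpos hPlt hPP μ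
            (f := h) (g := fun t => u t ^ (q - 1)) hh.aemeasurable (hu.pow_const _).aemeasurable
          refine le_trans (le_of_eq ?_) h2
          congr 1
          refine lintegral_congr fun t => ?_
          rw [Pi.mul_apply, mul_comm])
    refine key.trans (le_of_eq ?_)
    congr 2
    rw [Fin.prod_univ_succ, Real.mul_rpow (by positivity) (Finset.prod_nonneg fun j _ => by positivity),
      pow_succ]
    ring

/-- **The inequality for families of codes.** -/
theorem codes {m : ℕ} {L q C1 : ℝ} {μ : Measure ℝ} (P : Par m L q C1 μ) :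
    ∃ C : ℝ, 0 ≤ C ∧ ∀ (V : Finset (Fin (m + 1) → ℤ × ℤ)) (M : Fin (m + 1) → ℕ),
      Mult (m + 1) V M →
      ∫⁻ t, sl L q V t ∂μ ≤ ENNReal.ofReal (C * ((∏ j, (M j : ℝ)) ^ (1 / ((m : ℝ) + 1)) *
        (V.card : ℝ) ^ (q - 1 / ((m : ℝ) + 1)))) := by
  have hm1 : (0 : ℝ) < (m : ℝ) + 1 := by positivity
  have hq1 : 1 < q := lt_trans (by have : 0 < 1 / ((m : ℝ) + 1) := by positivity
                                   linarith) P.hq
  have hq0 : 0 < q - 1 := by linarith
  have hp1 : 1 < ((m : ℝ) + 1) * (q - 1) := by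
    have h1 := P.hq
    have h2 : 1 / ((m : ℝ) + 1) < q - 1 := by linarith
    rw [div_lt_iff₀ hm1] at h2
    linarith
  obtain ⟨C2, hC2, hhls0⟩ := hls (e := 1 / (((m : ℝ) + 1) * (q - 1))) (q := q) (by positivity)
    (by rw [div_lt_one (by linarith)]; exact hp1) hq1 P.hq2
  have he : 1 / (((m : ℝ) + 1) * (q - 1)) * (q - 1) = 1 / ((m : ℝ) + 1) := by field_simp
  have hhls : ∀ (ι : Type) [DecidableEq ι] (R : Finset ι) (a : ι → ℤ) (g : ι → ℝ),
      (∀ v ∈ R, 0 < g v) → ∀ M : ℕ, (∀ z, (R.filter fun v => a v = z).card ≤ M) →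
      ∑ v ∈ R, g v * (∑ w ∈ R, g w * ker (1 / (((m : ℝ) + 1) * (q - 1))) (a w - a v)) ^ (q - 1) ≤
        C2 * ((M : ℝ) ^ (1 / ((m : ℝ) + 1)) *
          (∑ v ∈ R, g v ^ (q / (q - 1 / ((m : ℝ) + 1)))) ^ (q - 1 / ((m : ℝ) + 1))) := by
    intro ι _ R a g hg M hM
    have h1 := hhls0 ι R a g hg M hM
    rw [he] at h1
    exact h1
  have hC1 := P.hC1
  have hL := P.hL
  refine ⟨(2 * L * C1 ^ (1 / ((m : ℝ) + 1)) * C2) ^ (m + 1), by positivity, ?_⟩
  intro V M hM
  have key := step P hC2 hhls V M hM (fun _ => 1) measurable_const 1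
      ((2 * L * C1 ^ (1 / ((m : ℝ) + 1)) * C2) ^ m *
          (∏ j : Fin m, (M j.succ : ℝ)) ^ (1 / ((m : ℝ) + 1))) (by positivity) (by
        intro v hv u hu
        have h1 := claim P hC2 hhls m le_rfl (fib V v) (fun j => M j.succ) (hM.2 v)
          (fun t => u t ^ (q - 1)) (hu.pow_const _)
        have e1 : ((m : ℝ) + 1) / ((m : ℝ) + 1 - m) = (m : ℝ) + 1 := by
          rw [add_sub_cancel_left, div_one]
        rw [e1] at h1
        simp only [mul_one]
        exact h1)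
  simp only [mul_one] at key
  refine key.trans (le_of_eq ?_)
  congr 1
  rw [Fin.prod_univ_succ, Real.mul_rpow (by positivity) (Finset.prod_nonneg fun j _ => by positivity),
    pow_succ]
  ring

end Pool.Agent.TH304.KF
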