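import Pool.Agent.TH304.KF.Tubes

set_option autoImplicit false

/-!
# The Kakeya inequality for families with bounded flag multiplicities
-/

namespace Pool.Agent.TH304.KF

open MeasureTheory Set
open scoped ENNReal

/-- the multiplicity condition: for every tube `i` and every `k < m`, among the tubes whose first
`k + 1` slopes and first `k` feet agree with those of the tube `i` up to `δ`, the foot number `k`
takes values in at most `M k` intervals of length `2 δ` -/
def FlagMult {m : ℕ} {ι : Type} (δ : ℝ) (a e : ι → EuclideanSpace ℝ (Fin (m + 2)))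
    (M : Fin m → ℕ) : Prop :=
  ∀ (k : Fin m) (i : ι), ∃ F : Finset ℝ, F.card ≤ M k ∧
    ∀ i' : ι, (∀ l, l ≤ k.castSucc → |slope (e i') l - slope (e i) l| ≤ δ) →
      (∀ l, l < k.castSucc → |foot (a i') (e i') l - foot (a i) (e i) l| ≤ δ) →
      ∃ x ∈ F, |foot (a i') (e i') k.castSucc - x| ≤ δ

lemma scale {k : ℕ} {h : ℝ} (hh : 0 < h) {F : (Fin k → ℝ) → ℝ≥0∞} (hF : Measurable F) :
    ∫⁻ y : Fin k → ℝ, F (fun j => y j / h) = ENNReal.ofReal (h ^ k) * ∫⁻ y, F y := by
  have hne : h⁻¹ ≠ 0 := inv_ne_zero hh.ne'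
  have h1 := Measure.map_addHaar_smul (volume : Measure (Fin k → ℝ)) hne
  have h2 : ∫⁻ y : Fin k → ℝ, F (fun j => y j / h) = ∫⁻ y, F y ∂(Measure.map (fun y => h⁻¹ • y)
      (volume : Measure (Fin k → ℝ))) := by
    rw [lintegral_map hF (measurable_const_smul h⁻¹)]
    refine lintegral_congr fun y => ?_
    congr 1
    funext j
    simp [div_eq_inv_mul]
  rw [h2, h1, lintegral_smul_measure, smul_eq_mul]
  congr 2
  rw [Module.finrank_fin_fun, inv_pow, inv_inv, abs_of_pos (by positivity)]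

lemma floor_close {x y h : ℝ} (hh : 0 < h) (hxy : ⌊x / h⌋ = ⌊y / h⌋) : |x - y| < h := by
  have := Int.abs_sub_lt_one_of_floor_eq_floor hxy
  rw [← sub_div, abs_div, abs_of_pos hh, div_lt_one hh] at this
  exact this

/-- the code of a tube -/
noncomputable def code {m : ℕ} (h : ℝ) (a e : EuclideanSpace ℝ (Fin (m + 2))) :
    Fin (m + 1) → ℤ × ℤ := fun j => (⌊slope e j / h⌋, ⌊foot a e j / h⌋)

/-- the codes have bounded multiplicities -/
lemma code_mult {m : ℕ} {δ h : ℝ} (hδ : 0 < δ) (hh : h = δ / ((m : ℝ) + 1)) {ι : Type} [Fintype ι]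
    [DecidableEq ι] (a e : ι → EuclideanSpace ℝ (Fin (m + 2))) (M : Fin m → ℕ)
    (he : ∀ i, ‖e i‖ = 1) (hsep : ∀ i j, i ≠ j → δ ≤ ‖e i - e j‖)
    (hpos : ∀ i, 0 < e i (Fin.last (m + 1))) (hF : FlagMult δ a e M) :
    Mult (m + 1) (Finset.univ.image fun i => code h (a i) (e i))
      (Fin.lastCases 1 fun k => M k * (2 * (m + 1) + 2)) := by
  have hm1 : (0 : ℝ) < (m : ℝ) + 1 := by positivity
  have hh0 : 0 < h := by rw [hh]; positivity
  have hhδ : h ≤ δ := by
    rw [hh, div_le_iff₀ hm1]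
    have : (0 : ℝ) ≤ m := Nat.cast_nonneg m
    nlinarith
  have hhδ2 : ((m : ℝ) + 1) * h ^ 2 ≤ δ ^ 2 := by
    rw [hh, div_pow]
    rw [mul_div_assoc', div_le_iff₀ (by positivity)]
    have : (0 : ℝ) ≤ m := Nat.cast_nonneg m
    nlinarith [sq_nonneg δ, mul_nonneg this (sq_nonneg δ)]
  apply mult_of
  intro j c _ z
  by_cases hex : ∃ i0 : ι, (∀ l, l < j → code h (a i0) (e i0) l = c l) ∧ (code h (a i0) (e i0) j).1 = z
  · obtain ⟨i0, hi0, hz0⟩ := hex
    refine Fin.lastCases ?_ (fun k => ?_) j (motive := fun j =>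
      (∀ l, l < j → code h (a i0) (e i0) l = c l) → (code h (a i0) (e i0) j).1 = z →
      ∃ G : Finset ℤ, G.card ≤ (Fin.lastCases 1 (fun k => M k * (2 * (m + 1) + 2)) j : ℕ) ∧
      ∀ c' ∈ (Finset.univ.image fun i => code h (a i) (e i)),
        (∀ l, l < j → c' l = c l) → (c' j).1 = z → (c' j).2 ∈ G) hi0 hz0
    · intro hi0 hz0
      refine ⟨{(code h (a i0) (e i0) (Fin.last m)).2}, by simp, ?_⟩
      intro c' hc' hl hz
      obtain ⟨i', _, rfl⟩ := Finset.mem_image.1 hc'
      have hii : i' = i0 := by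
        by_contra hne
        have h1 := hsep i' i0 hne
        have h2 := dir_close hhδ2 hδ (e i') (e i0) (he i') (he i0) (hpos i') (hpos i0) (by
          intro l
          apply floor_close hh0
          refine Fin.lastCases ?_ (fun l => ?_) l
          · exact hz.trans hz0.symm
          · have h3 := hl l.castSucc (Fin.castSucc_lt_last l)
            have h4 := hi0 l.castSucc (Fin.castSucc_lt_last l)
            exact congrArg Prod.fst (h3.trans h4.symm))
        linarith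
      rw [hii]
      simp
    · intro hi0 hz0
      obtain ⟨F, hFc, hF2⟩ := hF k i0
      refine ⟨F.biUnion fun x => Finset.Icc ⌊(x - δ) / h⌋ ⌊(x + δ) / h⌋, ?_, ?_⟩
      · rw [Fin.lastCases_castSucc]
        refine (Finset.card_biUnion_le_card_mul F _ (2 * (m + 1) + 2) ?_).trans
          (Nat.mul_le_mul_right _ hFc)
        intro x _
        rw [Int.card_Icc]
        have h1 : (⌊(x + δ) / h⌋ : ℝ) ≤ (x + δ) / h := Int.floor_le _
        have h2 : (x - δ) / h < (⌊(x - δ) / h⌋ : ℝ) + 1 := Int.lt_floor_add_one _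
        have h3 : (x + δ) / h - (x - δ) / h = 2 * ((m : ℝ) + 1) := by
          rw [hh]; field_simp; ring
        have h4 : ((⌊(x + δ) / h⌋ + 1 - ⌊(x - δ) / h⌋ : ℤ) : ℝ) < 2 * ((m : ℝ) + 1) + 2 := by
          push_cast; linarith
        have h5 : (⌊(x + δ) / h⌋ + 1 - ⌊(x - δ) / h⌋ : ℤ) < 2 * ((m : ℤ) + 1) + 2 := by
          exact_mod_cast h4
        omega
      · intro c' hc' hl hz
        obtain ⟨i', _, rfl⟩ := Finset.mem_image.1 hc'
        have hcl : ∀ l, l < k.castSucc → code h (a i') (e i') l = code h (a i0) (e i0) l :=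
          fun l hlt => (hl l hlt).trans (hi0 l hlt).symm
        have hzz : (code h (a i') (e i') k.castSucc).1 = (code h (a i0) (e i0) k.castSucc).1 :=
          hz.trans hz0.symm
        obtain ⟨x, hx, hx2⟩ := hF2 i' (by
          intro l hlk
          rcases lt_or_eq_of_le hlk with h1 | h1
          · exact (floor_close hh0 (congrArg Prod.fst (hcl l h1))).le.trans hhδ
          · subst h1
            exact (floor_close hh0 hzz).le.trans hhδ) (by
          intro l hlk
          exact (floor_close hh0 (congrArg Prod.snd (hcl l hlk))).le.trans hhδ)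
        rw [Finset.mem_biUnion]
        refine ⟨x, hx, ?_⟩
        rw [Finset.mem_Icc]
        have h6 := abs_le.1 hx2
        show ⌊(x - δ) / h⌋ ≤ ⌊foot (a i') (e i') k.castSucc / h⌋ ∧
          ⌊foot (a i') (e i') k.castSucc / h⌋ ≤ ⌊(x + δ) / h⌋
        constructor
        · apply Int.floor_le_floor
          gcongr
          linarith
        · apply Int.floor_le_floor
          gcongr
          linarith
  · refine ⟨∅, by simp, ?_⟩
    intro c' hc' hl hz
    exfalso
    obtain ⟨i', _, rfl⟩ := Finset.mem_image.1 hc'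
    exact hex ⟨i', hl, hz⟩

lemma code_inj {m : ℕ} {δ h : ℝ} (hδ : 0 < δ) (hh : h = δ / ((m : ℝ) + 1)) {ι : Type}
    (a e : ι → EuclideanSpace ℝ (Fin (m + 2)))
    (he : ∀ i, ‖e i‖ = 1) (hsep : ∀ i j, i ≠ j → δ ≤ ‖e i - e j‖)
    (hpos : ∀ i, 0 < e i (Fin.last (m + 1))) :
    Function.Injective fun i => code h (a i) (e i) := by
  have hm1 : (0 : ℝ) < (m : ℝ) + 1 := by positivity
  have hh0 : 0 < h := by rw [hh]; positivity
  have hhδ2 : ((m : ℝ) + 1) * h ^ 2 ≤ δ ^ 2 := by
    rw [hh, div_pow]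
    rw [mul_div_assoc', div_le_iff₀ (by positivity)]
    have : (0 : ℝ) ≤ m := Nat.cast_nonneg m
    nlinarith [sq_nonneg δ, mul_nonneg this (sq_nonneg δ)]
  intro i i' hii
  by_contra hne
  have h1 := hsep i i' hne
  have h2 := dir_close hhδ2 hδ (e i) (e i') (he i) (he i') (hpos i) (hpos i') (by
    intro l
    apply floor_close hh0
    exact congrArg Prod.fst (congrFun hii l))
  linarith

/-- the multiplicity function of a family of tubes -/
noncomputable def mlt {m : ℕ} {ι : Type} [Fintype ι] (δ : ℝ) (a e : ι → EuclideanSpace ℝ (Fin (m + 2)))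
    (x : EuclideanSpace ℝ (Fin (m + 2))) : ℝ≥0∞ :=
  ∑ i, (tube δ (a i) (e i)).indicator (fun _ => (1 : ℝ≥0∞)) x

lemma meas1 {m : ℕ} (L h : ℝ) (V : Finset (Fin (m + 1) → ℤ × ℤ)) :
    Measurable (fun x : Fin (m + 2) → ℝ =>
      cnt L V (fun j => x j.castSucc / h) (x (Fin.last (m + 1)))) := by
  have h0 : Measurable (fun x : Fin (m + 2) → ℝ => fun j : Fin (m + 1) => x j.castSucc / h) := by
    apply measurable_pi_lambda
    intro j
    have h1 : Measurable (fun x : Fin (m + 2) → ℝ => x j.castSucc) := measurable_pi_apply _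
    simp only [div_eq_mul_inv]
    exact h1.mul_const h⁻¹
  have h1 : Measurable (fun x : Fin (m + 2) → ℝ => x (Fin.last (m + 1))) := measurable_pi_apply _
  have h2 : Measurable (fun x : Fin (m + 2) → ℝ => ((fun j : Fin (m + 1) => x j.castSucc / h),
    x (Fin.last (m + 1)))) := h0.prodMk h1
  have h3 := (measurable_cnt L V).comp h2
  exact h3

lemma meas2 {m : ℕ} (L h : ℝ) (V : Finset (Fin (m + 1) → ℤ × ℤ)) :
    Measurable (fun p : ℝ × (Fin (m + 1) → ℝ) => cnt L V (fun j => p.2 j / h) p.1) := by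
  have h0 : Measurable (fun p : ℝ × (Fin (m + 1) → ℝ) => fun j : Fin (m + 1) => p.2 j / h) := by
    apply measurable_pi_lambda
    intro j
    have h1 : Measurable (fun p : ℝ × (Fin (m + 1) → ℝ) => p.2 j) :=
      (measurable_pi_apply (X := fun _ : Fin (m + 1) => ℝ) j).comp measurable_snd
    simp only [div_eq_mul_inv]
    exact h1.mul_const h⁻¹
  have h2 : Measurable (fun p : ℝ × (Fin (m + 1) → ℝ) => ((fun j : Fin (m + 1) => p.2 j / h),
    p.1)) := h0.prodMk measurable_fst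
  have h3 := (measurable_cnt L V).comp h2
  exact h3

lemma meas3 (τ : ℝ) : Measurable ((Icc (-τ) τ).indicator (fun _ => (1 : ℝ≥0∞))) :=
  measurable_const.indicator measurableSet_Icc

/-- integration over the slices -/
lemma integral_eq {m : ℕ} (L : ℝ) {q h : ℝ} (τ : ℝ) (hq0 : 0 < q) (hh0 : 0 < h)
    (V : Finset (Fin (m + 1) → ℤ × ℤ)) :
    ∫⁻ x : EuclideanSpace ℝ (Fin (m + 2)),
        (cnt L V (fun j => x j.castSucc / h) (x (Fin.last (m + 1))) *
        (Icc (-τ) τ).indicator (fun _ => (1 : ℝ≥0∞)) (x (Fin.last (m + 1)))) ^ q =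
      ENNReal.ofReal (h ^ (m + 1)) * ∫⁻ t, sl L q V t ∂(volume.restrict (Icc (-τ) τ)) := by
  have hGm : Measurable (fun x : Fin (m + 2) → ℝ =>
      (cnt L V (fun j => x j.castSucc / h) (x (Fin.last (m + 1))) *
        (Icc (-τ) τ).indicator (fun _ => (1 : ℝ≥0∞)) (x (Fin.last (m + 1)))) ^ q) :=
    ((meas1 L h V).mul ((meas3 τ).comp (measurable_pi_apply _))).pow_const q
  have hG2 : Measurable (fun p : ℝ × (Fin (m + 1) → ℝ) =>
      (cnt L V (fun j => p.2 j / h) p.1 *
        (Icc (-τ) τ).indicator (fun _ => (1 : ℝ≥0∞)) p.1) ^ q) :=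
    ((meas2 L h V).mul ((meas3 τ).comp measurable_fst)).pow_const q
  calc _ = ∫⁻ x : Fin (m + 2) → ℝ,
        (cnt L V (fun j => x j.castSucc / h) (x (Fin.last (m + 1))) *
        (Icc (-τ) τ).indicator (fun _ => (1 : ℝ≥0∞)) (x (Fin.last (m + 1)))) ^ q :=
        (PiLp.volume_preserving_ofLp (Fin (m + 2))).lintegral_comp hGm
    _ = ∫⁻ p : ℝ × (Fin (m + 1) → ℝ), (cnt L V (fun j => p.2 j / h) p.1 *
        (Icc (-τ) τ).indicator (fun _ => (1 : ℝ≥0∞)) p.1) ^ q := by
        rw [← (volume_preserving_piFinSuccAbove (fun _ : Fin (m + 2) => ℝ)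
          (Fin.last (m + 1))).lintegral_comp hG2]
        refine lintegral_congr fun x => ?_
        simp [MeasurableEquiv.piFinSuccAbove, Fin.insertNthEquiv, Fin.init]
    _ = ∫⁻ t : ℝ, ∫⁻ y : Fin (m + 1) → ℝ, (cnt L V (fun j => y j / h) t *
        (Icc (-τ) τ).indicator (fun _ => (1 : ℝ≥0∞)) t) ^ q := by
        rw [Measure.volume_eq_prod, lintegral_prod _ hG2.aemeasurable]
    _ = ∫⁻ t : ℝ, (Icc (-τ) τ).indicator (fun t => ENNReal.ofReal (h ^ (m + 1)) * sl L q V t) t := by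
        refine lintegral_congr fun t => ?_
        by_cases ht : t ∈ Icc (-τ) τ
        · rw [Set.indicator_of_mem ht, Set.indicator_of_mem ht]
          simp only [mul_one]
          have hm : Measurable (fun y : Fin (m + 1) → ℝ => cnt L V y t ^ q) :=
            ((measurable_cnt L V).comp
              (measurable_id.prodMk measurable_const : Measurable fun y : Fin (m + 1) → ℝ => (y, t))).pow_const q
          exact scale hh0 hm
        · rw [Set.indicator_of_notMem ht, Set.indicator_of_notMem ht]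
          simp only [mul_zero]
          rw [ENNReal.zero_rpow_of_pos hq0, lintegral_zero]
    _ = _ := by
        rw [lintegral_indicator measurableSet_Icc, lintegral_const_mul _ (measurable_sl L q V)]

/-- the codes majorise the multiplicity function -/
lemma mlt_le {m : ℕ} {c S δ h L : ℝ} (hc : 0 < c) (hδ : 0 < δ) (hδ1 : δ < 1)
    (hh : h = δ / ((m : ℝ) + 1)) (hL : L = ((m : ℝ) + 1) * (1 + 1 / c) + 1 + (S + 3 / 2))
    {ι : Type} [Fintype ι] [DecidableEq ι] (a e : ι → EuclideanSpace ℝ (Fin (m + 2)))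
    (he : ∀ i, ‖e i‖ = 1) (hsep : ∀ i j, i ≠ j → δ ≤ ‖e i - e j‖)
    (hce : ∀ i, c ≤ e i (Fin.last (m + 1)) ∧ |a i (Fin.last (m + 1))| ≤ S)
    (x : EuclideanSpace ℝ (Fin (m + 2))) :
    mlt δ a e x ≤ cnt L (Finset.univ.image fun i => code h (a i) (e i))
        (fun j => x j.castSucc / h) (x (Fin.last (m + 1))) *
        (Icc (-(S + 3 / 2)) (S + 3 / 2)).indicator (fun _ => (1 : ℝ≥0∞)) (x (Fin.last (m + 1))) := by
  have hm1 : (0 : ℝ) < (m : ℝ) + 1 := by positivity
  have hh0 : 0 < h := by rw [hh]; positivity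
  have hpos : ∀ i, 0 < e i (Fin.last (m + 1)) := fun i => lt_of_lt_of_le hc (hce i).1
  have hinj := code_inj hδ hh a e he hsep hpos
  unfold mlt cnt
  rw [Finset.sum_image (fun i _ j _ hij => hinj hij), Finset.sum_mul]
  refine Finset.sum_le_sum fun i _ => ?_
  by_cases hx : x ∈ tube δ (a i) (e i)
  · rw [Set.indicator_of_mem hx]
    obtain ⟨h1, h2⟩ := tube_close hδ hδ1 hc (a i) (e i) x (he i) (hce i).1 hx
    have h3 : |x (Fin.last (m + 1))| ≤ S + 3 / 2 := by
      have := (hce i).2; linarith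
    rw [Set.indicator_of_mem (show x (Fin.last (m + 1)) ∈ Icc (-(S + 3 / 2)) (S + 3 / 2) from
      abs_le.1 h3), mul_one]
    refine le_of_eq ?_
    symm
    apply Finset.prod_eq_one
    intro j _
    unfold ind
    rw [if_pos]
    have h4 : |foot (a i) (e i) j / h - ⌊foot (a i) (e i) j / h⌋| ≤ 1 := by
      rw [abs_le]
      constructor <;> linarith [Int.floor_le (foot (a i) (e i) j / h),
        Int.lt_floor_add_one (foot (a i) (e i) j / h)]
    have h5 : |slope (e i) j / h - ⌊slope (e i) j / h⌋| ≤ 1 := by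
      rw [abs_le]
      constructor <;> linarith [Int.floor_le (slope (e i) j / h),
        Int.lt_floor_add_one (slope (e i) j / h)]
    have h6 : |x j.castSucc / h - (foot (a i) (e i) j / h +
        x (Fin.last (m + 1)) * (slope (e i) j / h))| ≤ ((m : ℝ) + 1) * (1 + 1 / c) := by
      have e1 : x j.castSucc / h - (foot (a i) (e i) j / h +
          x (Fin.last (m + 1)) * (slope (e i) j / h)) =
          (x j.castSucc - (foot (a i) (e i) j + x (Fin.last (m + 1)) * slope (e i) j)) / h := by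
        field_simp
      rw [e1, abs_div, abs_of_pos hh0, div_le_iff₀ hh0]
      calc _ ≤ δ * (1 + 1 / c) := h1 j
        _ = _ := by rw [hh]; field_simp
    have e2 : x j.castSucc / h - ln (code h (a i) (e i) j) (x (Fin.last (m + 1))) =
        (x j.castSucc / h - (foot (a i) (e i) j / h + x (Fin.last (m + 1)) * (slope (e i) j / h))) +
        (foot (a i) (e i) j / h - ⌊foot (a i) (e i) j / h⌋) +
        x (Fin.last (m + 1)) * (slope (e i) j / h - ⌊slope (e i) j / h⌋) := by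
      simp only [ln, code]
      ring
    rw [e2]
    have hS3 : 0 ≤ S + 3 / 2 := (abs_nonneg _).trans h3
    calc _ ≤ |x j.castSucc / h - (foot (a i) (e i) j / h +
          x (Fin.last (m + 1)) * (slope (e i) j / h))| +
          |foot (a i) (e i) j / h - ⌊foot (a i) (e i) j / h⌋| +
          |x (Fin.last (m + 1)) * (slope (e i) j / h - ⌊slope (e i) j / h⌋)| := abs_add_three _ _ _
      _ ≤ ((m : ℝ) + 1) * (1 + 1 / c) + 1 + (S + 3 / 2) * 1 := by
          rw [abs_mul]
          gcongr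
      _ = L := by rw [hL]; ring
  · rw [Set.indicator_of_notMem hx]
    exact bot_le

/-- the inequality for exponents at most `2` -/
lemma main2 (m : ℕ) (hm : 1 ≤ m) (c S : ℝ) (hc : 0 < c) (hS : 0 ≤ S) (q : ℝ)
    (hq : 1 + 1 / ((m : ℝ) + 1) < q) (hq2 : q ≤ 2) :
    ∃ C : ℝ, 0 < C ∧ ∀ δ : ℝ, 0 < δ → δ < 1 → ∀ (ι : Type) [Fintype ι]
      (a e : ι → EuclideanSpace ℝ (Fin (m + 2))) (M : Fin m → ℕ), (∀ i, ‖e i‖ = 1) →
      (∀ i j, i ≠ j → δ ≤ ‖e i - e j‖) →
      (∀ i, c ≤ e i (Fin.last (m + 1)) ∧ |a i (Fin.last (m + 1))| ≤ S) → FlagMult δ a e M →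
      ∫⁻ x, mlt δ a e x ^ q ≤
        ENNReal.ofReal (C * ((∏ k, (M k : ℝ)) ^ (1 / ((m : ℝ) + 1)) * δ ^ (m + 1) *
          (Fintype.card ι : ℝ) ^ (q - 1 / ((m : ℝ) + 1)))) := by
  have hm1 : (0 : ℝ) < (m : ℝ) + 1 := by positivity
  have hm0 : (0 : ℝ) ≤ m := Nat.cast_nonneg m
  have hq1 : 1 < q := lt_trans (by have : 0 < 1 / ((m : ℝ) + 1) := by positivity
                                   linarith) hq
  have hq0 : 0 < q := by linarith
  obtain ⟨L, hL⟩ : ∃ L : ℝ, L = ((m : ℝ) + 1) * (1 + 1 / c) + 1 + (S + 3 / 2) := ⟨_, rfl⟩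
  have hL0 : 0 ≤ L := by rw [hL]; positivity
  have hτ0 : 0 ≤ S + 3 / 2 := by positivity
  obtain ⟨C0, hC0, hcodes⟩ := codes (m := m) (L := L) (q := q) (C1 := 2 * (S + 3 / 2) + 8 * L)
    (μ := volume.restrict (Icc (-(S + 3 / 2)) (S + 3 / 2)))
    ⟨hm, hL0, hq, hq2, by positivity, overlap hL0 hτ0⟩
  obtain ⟨D0, hD0⟩ : ∃ D0 : ℝ, D0 = (((2 * (m + 1) + 2 : ℕ) : ℝ) ^ m) ^ (1 / ((m : ℝ) + 1)) :=
    ⟨_, rfl⟩
  have hD00 : 0 ≤ D0 := by rw [hD0]; positivity
  refine ⟨C0 * D0 + 1, by positivity, ?_⟩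
  intro δ hδ hδ1 ι _ a e M he hsep hce hF
  classical
  obtain ⟨h, hh⟩ : ∃ h : ℝ, h = δ / ((m : ℝ) + 1) := ⟨_, rfl⟩
  have hh0 : 0 < h := by rw [hh]; positivity
  have hhδ : h ≤ δ := by
    rw [hh, div_le_iff₀ hm1]; nlinarith
  have hpos : ∀ i, 0 < e i (Fin.last (m + 1)) := fun i => lt_of_lt_of_le hc (hce i).1
  have hinj := code_inj hδ hh a e he hsep hpos
  have hcard : (Finset.univ.image fun i => code h (a i) (e i)).card = Fintype.card ι := by
    rw [Finset.card_image_of_injective _ hinj, Finset.card_univ]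
  have hmult := code_mult hδ hh a e M he hsep hpos hF
  have hfin := hcodes _ _ hmult
  rw [hcard] at hfin
  have hprod : (∏ j, ((Fin.lastCases 1 (fun k => M k * (2 * (m + 1) + 2)) j : ℕ) : ℝ)) =
      (∏ k, (M k : ℝ)) * ((2 * (m + 1) + 2 : ℕ) : ℝ) ^ m := by
    rw [Fin.prod_univ_castSucc]
    simp only [Fin.lastCases_castSucc, Fin.lastCases_last, Nat.cast_one, mul_one]
    push_cast
    rw [Finset.prod_mul_distrib]
    simp
  rw [hprod, Real.mul_rpow (Finset.prod_nonneg fun k _ => by positivity) (by positivity),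
    ← hD0] at hfin
  have hM0 : 0 ≤ (∏ k, (M k : ℝ)) ^ (1 / ((m : ℝ) + 1)) :=
    Real.rpow_nonneg (Finset.prod_nonneg fun k _ => by positivity) _
  calc ∫⁻ x, mlt δ a e x ^ q
      ≤ ∫⁻ x : EuclideanSpace ℝ (Fin (m + 2)),
        (cnt L (Finset.univ.image fun i => code h (a i) (e i))
          (fun j => x j.castSucc / h) (x (Fin.last (m + 1))) *
        (Icc (-(S + 3 / 2)) (S + 3 / 2)).indicator (fun _ => (1 : ℝ≥0∞)) (x (Fin.last (m + 1)))) ^ q :=
        lintegral_mono fun x => ENNReal.rpow_le_rpow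
          (mlt_le hc hδ hδ1 hh hL a e he hsep hce x) hq0.le
    _ = ENNReal.ofReal (h ^ (m + 1)) *
        ∫⁻ t, sl L q (Finset.univ.image fun i => code h (a i) (e i)) t
          ∂(volume.restrict (Icc (-(S + 3 / 2)) (S + 3 / 2))) :=
        integral_eq L (S + 3 / 2) hq0 hh0 _
    _ ≤ ENNReal.ofReal (h ^ (m + 1)) * ENNReal.ofReal (C0 * ((∏ k, (M k : ℝ)) ^ (1 / ((m : ℝ) + 1)) *
          D0 * (Fintype.card ι : ℝ) ^ (q - 1 / ((m : ℝ) + 1)))) :=
        mul_le_mul' le_rfl hfin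
    _ ≤ _ := by
        rw [← ENNReal.ofReal_mul (by positivity)]
        apply ENNReal.ofReal_le_ofReal
        calc h ^ (m + 1) * (C0 * ((∏ k, (M k : ℝ)) ^ (1 / ((m : ℝ) + 1)) * D0 *
              (Fintype.card ι : ℝ) ^ (q - 1 / ((m : ℝ) + 1))))
            = (C0 * D0) * ((∏ k, (M k : ℝ)) ^ (1 / ((m : ℝ) + 1)) * h ^ (m + 1) *
              (Fintype.card ι : ℝ) ^ (q - 1 / ((m : ℝ) + 1))) := by ring
          _ ≤ _ := by
              gcongr
              linarith

/-- **The inequality in the full range.** -/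
theorem main (m : ℕ) (hm : 1 ≤ m) (c S : ℝ) (hc : 0 < c) (hS : 0 ≤ S) (q : ℝ)
    (hq : 1 + 1 / ((m : ℝ) + 1) < q) :
    ∃ C : ℝ, 0 < C ∧ ∀ δ : ℝ, 0 < δ → δ < 1 → ∀ (ι : Type) [Fintype ι]
      (a e : ι → EuclideanSpace ℝ (Fin (m + 2))) (M : Fin m → ℕ), (∀ i, ‖e i‖ = 1) →
      (∀ i j, i ≠ j → δ ≤ ‖e i - e j‖) →
      (∀ i, c ≤ e i (Fin.last (m + 1)) ∧ |a i (Fin.last (m + 1))| ≤ S) → FlagMult δ a e M →
      ∫⁻ x, mlt δ a e x ^ q ≤
        ENNReal.ofReal (C * ((∏ k, (M k : ℝ)) ^ (1 / ((m : ℝ) + 1)) * δ ^ (m + 1) *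
          (Fintype.card ι : ℝ) ^ (q - 1 / ((m : ℝ) + 1)))) := by
  rcases le_or_gt q 2 with hq2 | hq2
  · exact main2 m hm c S hc hS q hq hq2
  · have hm0 : (1 : ℝ) ≤ m := by exact_mod_cast hm
    have h2 : 1 + 1 / ((m : ℝ) + 1) < 2 := by
      have : 1 / ((m : ℝ) + 1) < 1 := by rw [div_lt_one (by linarith)]; linarith
      linarith
    obtain ⟨C, hC, hmain⟩ := main2 m hm c S hc hS 2 h2 le_rfl
    refine ⟨C, hC, ?_⟩
    intro δ hδ hδ1 ι _ a e M he hsep hce hF
    have key := hmain δ hδ hδ1 ι a e M he hsep hce hF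
    have hle : ∀ x, mlt δ a e x ≤ (Fintype.card ι : ℝ≥0∞) := by
      intro x
      unfold mlt
      calc _ ≤ ∑ i : ι, (1 : ℝ≥0∞) := Finset.sum_le_sum fun i _ => by
            by_cases hx : x ∈ tube δ (a i) (e i)
            · rw [Set.indicator_of_mem hx]
            · rw [Set.indicator_of_notMem hx]; exact bot_le
        _ = _ := by simp
    have hq20 : 0 < q - 2 := by linarith
    rcases isEmpty_or_nonempty ι with hemp | hne
    · have h0 : ∀ x, mlt δ a e x ^ q = 0 := by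
        intro x
        unfold mlt
        rw [Finset.univ_eq_empty, Finset.sum_empty, ENNReal.zero_rpow_of_pos (by linarith)]
      rw [lintegral_congr h0, lintegral_zero]
      exact bot_le
    have hcard : (0 : ℝ) < Fintype.card ι := by exact_mod_cast Fintype.card_pos
    calc ∫⁻ x, mlt δ a e x ^ q ≤ ∫⁻ x, ENNReal.ofReal ((Fintype.card ι : ℝ) ^ (q - 2)) *
          mlt δ a e x ^ (2 : ℝ) := by
          refine lintegral_mono fun x => ?_
          have e1 : mlt δ a e x ^ q = mlt δ a e x ^ (q - 2) * mlt δ a e x ^ (2 : ℝ) := by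
            rw [← ENNReal.rpow_add_of_nonneg _ _ hq20.le (by norm_num)]
            congr 1; ring
          rw [e1]
          refine mul_le_mul' ?_ le_rfl
          rw [← ENNReal.ofReal_rpow_of_pos hcard, ENNReal.ofReal_natCast]
          exact ENNReal.rpow_le_rpow (hle x) hq20.le
      _ = ENNReal.ofReal ((Fintype.card ι : ℝ) ^ (q - 2)) * ∫⁻ x, mlt δ a e x ^ (2 : ℝ) :=
          lintegral_const_mul' _ _ ENNReal.ofReal_ne_top
      _ ≤ ENNReal.ofReal ((Fintype.card ι : ℝ) ^ (q - 2)) *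
          ENNReal.ofReal (C * ((∏ k, (M k : ℝ)) ^ (1 / ((m : ℝ) + 1)) * δ ^ (m + 1) *
          (Fintype.card ι : ℝ) ^ (2 - 1 / ((m : ℝ) + 1)))) := by
          gcongr
      _ = _ := by
          rw [← ENNReal.ofReal_mul (by positivity)]
          congr 1
          have e2 : (Fintype.card ι : ℝ) ^ (q - 1 / ((m : ℝ) + 1)) =
              (Fintype.card ι : ℝ) ^ (q - 2) * (Fintype.card ι : ℝ) ^ (2 - 1 / ((m : ℝ) + 1)) := by
            rw [← Real.rpow_add hcard]
            congr 1; ring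
          rw [e2]
          ring

end Pool.Agent.TH304.KF
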