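import Mathlib

set_option autoImplicit false

/-!
# A discrete Hardy-Littlewood-Sobolev type inequality with multiplicity
-/

namespace Pool.Agent.TH304.KF

open Finset

/-- the kernel -/
noncomputable def ker (e : ℝ) (z : ℤ) : ℝ := (1 + |(z : ℝ)|) ^ (-e)

lemma ker_nonneg (e : ℝ) (z : ℤ) : 0 ≤ ker e z := by unfold ker; positivity

lemma ker_pos (e : ℝ) (z : ℤ) : 0 < ker e z := by unfold ker; positivity

lemma ker_le_one {e : ℝ} (he : 0 ≤ e) (z : ℤ) : ker e z ≤ 1 := by
  unfold ker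
  apply Real.rpow_le_one_of_one_le_of_nonpos
  · have := abs_nonneg (z : ℝ); linarith
  · linarith

lemma ker_neg (e : ℝ) (z : ℤ) : ker e (-z) = ker e z := by
  unfold ker; push_cast; rw [abs_neg]

lemma sum_rpow_le {e : ℝ} (he0 : 0 ≤ e) (he : e < 1) (n : ℕ) :
    ∑ m ∈ range n, ((m : ℝ) + 1) ^ (-e) ≤ (n : ℝ) ^ (1 - e) / (1 - e) := by
  induction n with
  | zero => simp [Real.zero_rpow (show (1 - e) ≠ 0 by linarith)]
  | succ n ih =>
    rw [sum_range_succ]
    have h1e : 0 < 1 - e := by linarith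
    have hn : (0 : ℝ) < (n : ℝ) + 1 := by positivity
    have key : (n : ℝ) ^ (1 - e) ≤ ((n : ℝ) + 1) ^ (1 - e) - (1 - e) * ((n : ℝ) + 1) ^ (-e) := by
      have hb := rpow_one_add_le_one_add_mul_self (s := -(1 / ((n : ℝ) + 1)))
        (p := 1 - e) (by
          rw [neg_le_neg_iff, div_le_one hn]; linarith [(Nat.cast_nonneg n : (0 : ℝ) ≤ n)])
        h1e.le (by linarith)
      have e1 : 1 + -(1 / ((n : ℝ) + 1)) = n / ((n : ℝ) + 1) := by field_simp; ring
      rw [e1, Real.div_rpow (by positivity) hn.le, div_le_iff₀ (by positivity)] at hb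
      have e2 : ((n : ℝ) + 1) ^ (-e) = ((n : ℝ) + 1) ^ (1 - e) / ((n : ℝ) + 1) := by
        rw [show -e = (1 - e) - 1 by ring, Real.rpow_sub_one hn.ne']
      rw [e2]
      calc (n : ℝ) ^ (1 - e) ≤ (1 + (1 - e) * -(1 / ((n : ℝ) + 1))) * ((n : ℝ) + 1) ^ (1 - e) := hb
        _ = ((n : ℝ) + 1) ^ (1 - e) - (1 - e) * (((n : ℝ) + 1) ^ (1 - e) / ((n : ℝ) + 1)) := by
          ring
    have : (n : ℝ) ^ (1 - e) / (1 - e) + ((n : ℝ) + 1) ^ (-e) ≤ ((n : ℝ) + 1) ^ (1 - e) / (1 - e) := by
      rw [le_div_iff₀ h1e, add_mul, div_mul_cancel₀ _ h1e.ne']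
      linarith
    push_cast
    linarith

variable {ι : Type*} [DecidableEq ι]

/-- sum of the kernel over a set with at most `M` elements over every integer -/
lemma ker_sum {e : ℝ} (he0 : 0 ≤ e) (he : e < 1) (B : Finset ι) (a : ι → ℤ) (M : ℕ)
    (hM : ∀ z, (B.filter fun v => a v = z).card ≤ M) (a0 : ℤ) :
    ∑ v ∈ B, ker e (a v - a0) ≤ 5 / (1 - e) * ((M : ℝ) ^ e * (B.card : ℝ) ^ (1 - e)) := by
  have h1e : 0 < 1 - e := by linarith
  have hC : 1 ≤ 5 / (1 - e) := by rw [le_div_iff₀ h1e]; linarith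
  have hpos : 0 ≤ (M : ℝ) ^ e * (B.card : ℝ) ^ (1 - e) := by positivity
  rcases Nat.eq_zero_or_pos B.card with hB | hB
  · have : B = ∅ := card_eq_zero.1 hB
    subst this
    simp only [sum_empty]
    positivity
  rcases lt_or_ge B.card M with hlt | hge
  · -- few elements
    have h1 : ∑ v ∈ B, ker e (a v - a0) ≤ B.card := by
      calc ∑ v ∈ B, ker e (a v - a0) ≤ ∑ v ∈ B, (1 : ℝ) := sum_le_sum fun v _ => ker_le_one he0 _
        _ = B.card := by simp
    have h2 : (B.card : ℝ) ≤ (M : ℝ) ^ e * (B.card : ℝ) ^ (1 - e) := by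
      calc (B.card : ℝ) = (B.card : ℝ) ^ e * (B.card : ℝ) ^ (1 - e) := by
            rw [← Real.rpow_add (by exact_mod_cast hB)]; simp
        _ ≤ _ := by
            gcongr
    calc ∑ v ∈ B, ker e (a v - a0) ≤ (M : ℝ) ^ e * (B.card : ℝ) ^ (1 - e) := h1.trans h2
      _ ≤ _ := le_mul_of_one_le_left hpos hC
  · have hM0 : 0 < M := by
      rcases Nat.eq_zero_or_pos M with h0 | h0
      · exfalso
        subst h0
        obtain ⟨v, hv⟩ := card_pos.1 hB
        have := hM (a v)
        have h2 : v ∈ B.filter fun w => a w = a v := by simp [hv]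
        have h3 : 0 < (B.filter fun w => a w = a v).card := card_pos.2 ⟨v, h2⟩
        omega
      · exact h0
    have hMr : (0 : ℝ) < M := by exact_mod_cast hM0
    have hBr : (0 : ℝ) < B.card := by exact_mod_cast hB
    set T : ℕ := B.card / M with hT
    have hT1 : (B.card : ℝ) / M ≤ (T : ℝ) + 1 := by
      rw [div_le_iff₀ hMr]
      have : B.card < M * (B.card / M) + M := Nat.lt_mul_div_succ B.card hM0
      have h2 : (B.card : ℝ) < (M : ℝ) * (T : ℝ) + M := by exact_mod_cast this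
      nlinarith
    have hT2 : (T : ℝ) + 1 ≤ 2 * (B.card / M) := by
      have h1 : (T : ℝ) ≤ B.card / M := Nat.cast_div_le
      have h2 : (1 : ℝ) ≤ B.card / M := by rw [le_div_iff₀ hMr]; simpa using (by exact_mod_cast hge)
      linarith
    have hT0 : (0 : ℝ) < (T : ℝ) + 1 := by positivity
    set m : ι → ℕ := fun v => (a v - a0).natAbs with hm
    have hker : ∀ v, ker e (a v - a0) = ((m v : ℝ) + 1) ^ (-e) := by
      intro v
      unfold ker
      congr 1
      rw [hm, Nat.cast_natAbs, Int.cast_abs, add_comm]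
    have hsplit : ∑ v ∈ B, ker e (a v - a0) = ∑ v ∈ B.filter (fun v => m v ≤ T), ker e (a v - a0)
        + ∑ v ∈ B.filter (fun v => ¬ m v ≤ T), ker e (a v - a0) :=
      (sum_filter_add_sum_filter_not B _ _).symm
    -- near part
    have hnear : ∑ v ∈ B.filter (fun v => m v ≤ T), ker e (a v - a0) ≤
        4 / (1 - e) * ((M : ℝ) ^ e * (B.card : ℝ) ^ (1 - e)) := by
      have h1 : ∑ v ∈ B.filter (fun v => m v ≤ T), ker e (a v - a0) =
          ∑ j ∈ range (T + 1), ∑ v ∈ (B.filter (fun v => m v ≤ T)).filter (fun v => m v = j),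
            ker e (a v - a0) := by
        rw [sum_fiberwise_of_maps_to]
        intro v hv
        simp only [mem_filter] at hv
        simp only [mem_range]
        omega
      have h2 : ∀ j ∈ range (T + 1),
          ∑ v ∈ (B.filter (fun v => m v ≤ T)).filter (fun v => m v = j), ker e (a v - a0) ≤
          2 * M * ((j : ℝ) + 1) ^ (-e) := by
        intro j _
        have h3 : ∀ v ∈ (B.filter (fun v => m v ≤ T)).filter (fun v => m v = j),
            ker e (a v - a0) = ((j : ℝ) + 1) ^ (-e) := by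
          intro v hv
          rw [hker v, (mem_filter.1 hv).2]
        rw [sum_congr rfl h3, sum_const, nsmul_eq_mul]
        have h4 : ((B.filter (fun v => m v ≤ T)).filter (fun v => m v = j)).card ≤ 2 * M := by
          have hsub : (B.filter (fun v => m v ≤ T)).filter (fun v => m v = j) ⊆
              (B.filter fun v => a v = a0 + j) ∪ (B.filter fun v => a v = a0 - j) := by
            intro v hv
            simp only [mem_filter, hm] at hv
            simp only [mem_union, mem_filter]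
            obtain ⟨⟨hvB, _⟩, hv2⟩ := hv
            rcases Int.natAbs_eq (a v - a0) with h | h
            · left; exact ⟨hvB, by omega⟩
            · right; exact ⟨hvB, by omega⟩
          calc _ ≤ ((B.filter fun v => a v = a0 + j) ∪ (B.filter fun v => a v = a0 - j)).card :=
                card_le_card hsub
            _ ≤ _ := (card_union_le _ _).trans (by
                have := hM (a0 + j)
                have := hM (a0 - j)
                omega)
        have h5 : ((((B.filter (fun v => m v ≤ T)).filter (fun v => m v = j)).card : ℕ) : ℝ) ≤ 2 * M := by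
          exact_mod_cast h4
        gcongr
      rw [h1]
      calc _ ≤ ∑ j ∈ range (T + 1), 2 * M * ((j : ℝ) + 1) ^ (-e) := sum_le_sum h2
        _ = 2 * M * ∑ j ∈ range (T + 1), ((j : ℝ) + 1) ^ (-e) := by rw [mul_sum]
        _ ≤ 2 * M * ((((T + 1 : ℕ) : ℝ)) ^ (1 - e) / (1 - e)) := by
            gcongr
            exact sum_rpow_le he0 he (T + 1)
        _ ≤ 2 * M * ((2 * (B.card / M)) ^ (1 - e) / (1 - e)) := by
            push_cast
            gcongr
        _ ≤ 2 * M * (2 * (B.card / M) ^ (1 - e) / (1 - e)) := by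
            rw [Real.mul_rpow (by norm_num) (by positivity)]
            have : (2 : ℝ) ^ (1 - e) ≤ 2 := by
              calc (2 : ℝ) ^ (1 - e) ≤ 2 ^ (1 : ℝ) :=
                    Real.rpow_le_rpow_of_exponent_le (by norm_num) (by linarith)
                _ = 2 := by norm_num
            gcongr
        _ = 4 / (1 - e) * ((M : ℝ) * ((B.card : ℝ) / M) ^ (1 - e)) := by ring
        _ = 4 / (1 - e) * ((M : ℝ) ^ e * (B.card : ℝ) ^ (1 - e)) := by
            congr 1
            rw [Real.div_rpow hBr.le hMr.le, Real.rpow_sub hMr, Real.rpow_one]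
            field_simp
    have hfar : ∑ v ∈ B.filter (fun v => ¬ m v ≤ T), ker e (a v - a0) ≤
        (M : ℝ) ^ e * (B.card : ℝ) ^ (1 - e) := by
      have h1 : ∀ v ∈ B.filter (fun v => ¬ m v ≤ T), ker e (a v - a0) ≤ ((B.card : ℝ) / M) ^ (-e) := by
        intro v hv
        rw [hker v]
        apply Real.rpow_le_rpow_of_nonpos (by positivity) _ (by linarith)
        have hv2 := (mem_filter.1 hv).2
        have : (T : ℝ) + 1 ≤ m v := by exact_mod_cast (by omega : T + 1 ≤ m v)
        linarith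
      calc _ ≤ ∑ v ∈ B.filter (fun v => ¬ m v ≤ T), ((B.card : ℝ) / M) ^ (-e) := sum_le_sum h1
        _ = ((B.filter (fun v => ¬ m v ≤ T)).card : ℝ) * ((B.card : ℝ) / M) ^ (-e) := by
            rw [sum_const, nsmul_eq_mul]
        _ ≤ (B.card : ℝ) * ((B.card : ℝ) / M) ^ (-e) := by
            gcongr
            exact filter_subset _ _
        _ = (M : ℝ) ^ e * (B.card : ℝ) ^ (1 - e) := by
            rw [Real.div_rpow hBr.le hMr.le, Real.rpow_sub hBr, Real.rpow_one,
              Real.rpow_neg hMr.le, Real.rpow_neg hBr.le]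
            field_simp
    rw [hsplit]
    calc _ ≤ 4 / (1 - e) * ((M : ℝ) ^ e * (B.card : ℝ) ^ (1 - e)) +
          (M : ℝ) ^ e * (B.card : ℝ) ^ (1 - e) := add_le_add hnear hfar
      _ = (4 / (1 - e) + 1) * ((M : ℝ) ^ e * (B.card : ℝ) ^ (1 - e)) := by ring
      _ ≤ 5 / (1 - e) * ((M : ℝ) ^ e * (B.card : ℝ) ^ (1 - e)) := by
          gcongr
          rw [show (5 : ℝ) / (1 - e) = 4 / (1 - e) + 1 / (1 - e) by ring]
          gcongr
          rw [le_div_iff₀ h1e]
          linarith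

/-- sum over the part of the weights which is at most `G` -/
lemma level_sum {e r s : ℝ} (he0 : 0 ≤ e) (he : e < 1) (hr : 0 < r) (hs : r * (1 - e) < s)
    (R : Finset ι) (a : ι → ℤ) (g : ι → ℝ) (hg : ∀ v ∈ R, 0 < g v) (M : ℕ)
    (hM : ∀ z, (R.filter fun v => a v = z).card ≤ M) (a0 : ℤ) {G : ℝ} (hG : 0 < G) :
    ∑ v ∈ R.filter (fun v => g v ≤ G), g v ^ s * ker e (a v - a0) ≤
      5 / (1 - e) * 2 ^ (r * (1 - e)) * (1 - (2 : ℝ) ^ (-(s - r * (1 - e))))⁻¹ *
        ((M : ℝ) ^ e * (∑ v ∈ R, g v ^ r) ^ (1 - e) * G ^ (s - r * (1 - e))) := by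
  have h1e : 0 < 1 - e := by linarith
  have hs0 : 0 < s := lt_trans (by positivity) hs
  set A : ℝ := ∑ v ∈ R, g v ^ r with hA
  have hA0 : 0 ≤ A := sum_nonneg fun v hv => by have := hg v hv; positivity
  set σ : ℝ := r * (1 - e) with hσ
  set ρ : ℝ := (2 : ℝ) ^ (-(s - σ)) with hρ
  have hρ0 : 0 < ρ := by positivity
  have hρ1 : ρ < 1 := by
    rw [hρ]
    apply Real.rpow_lt_one_of_one_lt_of_neg (by norm_num)
    linarith
  set lev : ι → ℕ := fun v => ⌊Real.logb 2 (G / g v)⌋₊ with hlev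
  set R' := R.filter (fun v => g v ≤ G) with hR'
  have hlevp : ∀ v ∈ R', g v ≤ G * (2 : ℝ) ^ (-(lev v : ℝ)) ∧
      G * (2 : ℝ) ^ (-((lev v : ℝ) + 1)) < g v := by
    intro v hv
    have hv' := mem_filter.1 hv
    have hgv := hg v hv'.1
    have hx : 1 ≤ G / g v := by rw [le_div_iff₀ hgv]; linarith [hv'.2]
    have hlog : 0 ≤ Real.logb 2 (G / g v) := Real.logb_nonneg (by norm_num) hx
    have h1 : (lev v : ℝ) ≤ Real.logb 2 (G / g v) := Nat.floor_le hlog
    have h2 : Real.logb 2 (G / g v) < (lev v : ℝ) + 1 := Nat.lt_floor_add_one _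
    have h3 : (2 : ℝ) ^ (lev v : ℝ) ≤ G / g v := by
      rw [← Real.le_logb_iff_rpow_le (by norm_num) (by positivity)]; exact h1
    have h4 : G / g v < (2 : ℝ) ^ ((lev v : ℝ) + 1) := by
      rw [← Real.logb_lt_iff_lt_rpow (by norm_num) (by positivity)]; exact h2
    constructor
    · rw [Real.rpow_neg (by norm_num), ← div_eq_mul_inv, le_div_iff₀ (by positivity)]
      rw [le_div_iff₀ hgv] at h3
      linarith
    · rw [Real.rpow_neg (by norm_num), ← div_eq_mul_inv, div_lt_iff₀ (by positivity)]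
      rw [div_lt_iff₀ hgv] at h4
      linarith
  obtain ⟨N, hN⟩ : ∃ N, ∀ v ∈ R', lev v < N :=
    ⟨R'.sup lev + 1, fun v hv => Nat.lt_succ_of_le (le_sup hv)⟩
  have hsum : ∑ v ∈ R', g v ^ s * ker e (a v - a0) =
      ∑ i ∈ range N, ∑ v ∈ R'.filter (fun v => lev v = i), g v ^ s * ker e (a v - a0) := by
    rw [sum_fiberwise_of_maps_to]
    intro v hv
    exact mem_range.2 (hN v hv)
  rw [hsum]
  have hterm : ∀ i ∈ range N, ∑ v ∈ R'.filter (fun v => lev v = i), g v ^ s * ker e (a v - a0) ≤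
      5 / (1 - e) * 2 ^ σ * ((M : ℝ) ^ e * A ^ (1 - e) * G ^ (s - σ)) * ρ ^ i := by
    intro i _
    set B := R'.filter (fun v => lev v = i) with hB
    have hBs : ∀ v ∈ B, v ∈ R' ∧ lev v = i := fun v hv => mem_filter.1 hv
    have hBR : ∀ v ∈ B, v ∈ R := fun v hv => (mem_filter.1 (hBs v hv).1).1
    set x : ℝ := G * (2 : ℝ) ^ (-(i : ℝ)) with hx
    have hx0 : 0 < x := by positivity
    have hx2 : G * (2 : ℝ) ^ (-((i : ℝ) + 1)) = x / 2 := by
      rw [hx, neg_add, Real.rpow_add (by norm_num), Real.rpow_neg_one]; ring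
    have h1 : ∑ v ∈ B, g v ^ s * ker e (a v - a0) ≤ x ^ s * ∑ v ∈ B, ker e (a v - a0) := by
      rw [mul_sum]
      refine sum_le_sum fun v hv => ?_
      have h2 := (hlevp v (hBs v hv).1).1
      rw [(hBs v hv).2] at h2
      have := hg v (hBR v hv)
      have := ker_nonneg e (a v - a0)
      gcongr
    have h2 : ∑ v ∈ B, ker e (a v - a0) ≤ 5 / (1 - e) * ((M : ℝ) ^ e * (B.card : ℝ) ^ (1 - e)) := by
      apply ker_sum he0 he
      intro z
      refine le_trans (card_le_card ?_) (hM z)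
      intro v hv
      rw [mem_filter] at hv ⊢
      exact ⟨hBR v hv.1, hv.2⟩
    have h3 : (B.card : ℝ) * (x / 2) ^ r ≤ A := by
      calc (B.card : ℝ) * (x / 2) ^ r = ∑ v ∈ B, (x / 2) ^ r := by rw [sum_const, nsmul_eq_mul]
        _ ≤ ∑ v ∈ B, g v ^ r := by
            refine sum_le_sum fun v hv => ?_
            have h4 := (hlevp v (hBs v hv).1).2
            rw [(hBs v hv).2, hx2] at h4
            gcongr
        _ ≤ A := by
            apply sum_le_sum_of_subset_of_nonneg
            · exact fun v hv => hBR v hv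
            · intro v hv _; have := hg v hv; positivity
    have h5 : (B.card : ℝ) ^ (1 - e) ≤ A ^ (1 - e) * (x / 2) ^ (-σ) := by
      have h6 : (B.card : ℝ) ≤ A * (x / 2) ^ (-r) := by
        rw [Real.rpow_neg (by positivity), ← div_eq_mul_inv, le_div_iff₀ (by positivity)]
        exact h3
      calc (B.card : ℝ) ^ (1 - e) ≤ (A * (x / 2) ^ (-r)) ^ (1 - e) := by gcongr
        _ = A ^ (1 - e) * (x / 2) ^ (-σ) := by
            rw [Real.mul_rpow hA0 (by positivity), ← Real.rpow_mul (by positivity)]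
            congr 2
            rw [hσ]; ring
    have h7 : (x / 2) ^ (-σ) = 2 ^ σ * x ^ (-σ) := by
      rw [Real.div_rpow hx0.le (by norm_num), Real.rpow_neg (by norm_num : (0 : ℝ) ≤ 2)]
      field_simp
    have h8 : x ^ s * x ^ (-σ) = G ^ (s - σ) * ρ ^ i := by
      rw [← Real.rpow_add hx0, ← sub_eq_add_neg, hx, Real.mul_rpow hG.le (by positivity),
        ← Real.rpow_mul (by norm_num), hρ, ← Real.rpow_natCast, ← Real.rpow_mul (by norm_num)]
      congr 2
      ring
    calc ∑ v ∈ B, g v ^ s * ker e (a v - a0) ≤ x ^ s * ∑ v ∈ B, ker e (a v - a0) := h1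
      _ ≤ x ^ s * (5 / (1 - e) * ((M : ℝ) ^ e * (A ^ (1 - e) * (2 ^ σ * x ^ (-σ))))) := by
          rw [← h7]
          gcongr
          exact h2.trans (by gcongr)
      _ = 5 / (1 - e) * 2 ^ σ * ((M : ℝ) ^ e * A ^ (1 - e) * (x ^ s * x ^ (-σ))) := by ring
      _ = _ := by rw [h8]; ring
  calc _ ≤ ∑ i ∈ range N, 5 / (1 - e) * 2 ^ σ * ((M : ℝ) ^ e * A ^ (1 - e) * G ^ (s - σ)) * ρ ^ i :=
        sum_le_sum hterm
    _ = 5 / (1 - e) * 2 ^ σ * ((M : ℝ) ^ e * A ^ (1 - e) * G ^ (s - σ)) * ∑ i ∈ range N, ρ ^ i := by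
        rw [mul_sum]
    _ ≤ 5 / (1 - e) * 2 ^ σ * ((M : ℝ) ^ e * A ^ (1 - e) * G ^ (s - σ)) * (1 - ρ)⁻¹ := by
        gcongr
        exact (Summable.sum_le_tsum (range N) (fun i _ => by positivity)
          (summable_geometric_of_lt_one hρ0.le hρ1)).trans
            (by rw [tsum_geometric_of_lt_one hρ0.le hρ1])
    _ = _ := by ring

/-- **The inequality of Hardy-Littlewood-Sobolev type.** -/
theorem hls {e q : ℝ} (he0 : 0 < e) (he : e < 1) (hq1 : 1 < q) (hq2 : q ≤ 2) :
    ∃ C : ℝ, 0 < C ∧ ∀ (ι : Type) [DecidableEq ι] (R : Finset ι) (a : ι → ℤ) (g : ι → ℝ),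
      (∀ v ∈ R, 0 < g v) → ∀ M : ℕ, (∀ z, (R.filter fun v => a v = z).card ≤ M) →
      ∑ v ∈ R, g v * (∑ w ∈ R, g w * ker e (a w - a v)) ^ (q - 1) ≤
        C * ((M : ℝ) ^ (e * (q - 1)) *
          (∑ v ∈ R, g v ^ (q / (q - e * (q - 1)))) ^ (q - e * (q - 1))) := by
  have hq0 : 0 < q - 1 := by linarith
  set D : ℝ := q - e * (q - 1) with hD
  have hD0 : 0 < D := by rw [hD]; nlinarith
  set r : ℝ := q / D with hr
  have hr0 : 0 < r := by rw [hr]; positivity
  set θ : ℝ := (q - e) / D with hθ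
  have hσ1 : r * (1 - e) < 1 := by
    rw [hr, div_mul_eq_mul_div, div_lt_one hD0, hD]; nlinarith
  have hσθ : r * (1 - e) < θ := by
    rw [hr, hθ, div_mul_eq_mul_div, div_lt_div_iff_of_pos_right hD0]; nlinarith
  set K : ℝ → ℝ := fun s => 5 / (1 - e) * 2 ^ (r * (1 - e)) *
    (1 - (2 : ℝ) ^ (-(s - r * (1 - e))))⁻¹ with hK
  have h1e : 0 < 1 - e := by linarith
  have hKpos : ∀ s, r * (1 - e) < s → 0 < K s := by
    intro s hs
    have : (2 : ℝ) ^ (-(s - r * (1 - e))) < 1 := by
      apply Real.rpow_lt_one_of_one_lt_of_neg (by norm_num)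
      linarith
    have h2 : 0 < 1 - (2 : ℝ) ^ (-(s - r * (1 - e))) := by linarith
    simp only [hK]
    positivity
  have hK1 := hKpos 1 hσ1
  have hKθ := hKpos θ hσθ
  refine ⟨(K 1 + K θ) ^ (q - 1), by positivity, ?_⟩
  intro ι _ R a g hg M hM
  set A : ℝ := ∑ v ∈ R, g v ^ r with hA
  have hA0 : 0 ≤ A := sum_nonneg fun v hv => by have := hg v hv; positivity
  rcases R.eq_empty_or_nonempty with hR | hR
  · subst hR
    simp only [sum_empty]
    positivity
  have hApos : 0 < A := sum_pos (fun v hv => by have := hg v hv; positivity) hR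
  set Av : ι → ℝ := fun v => ∑ w ∈ R, g w * ker e (a w - a v) with hAv
  have hAv0 : ∀ v, 0 ≤ Av v := fun v => sum_nonneg fun w hw =>
    mul_nonneg (hg w hw).le (ker_nonneg _ _)
  have hexp1 : 1 + θ - r * (1 - e) = r := by
    rw [hθ, hr]; field_simp; rw [hD]; ring
  -- the bilinear form
  have hB : ∑ v ∈ R, g v ^ θ * Av v ≤ (K 1 + K θ) * ((M : ℝ) ^ e * A ^ (2 - e)) := by
    have h1 : ∀ v ∈ R, g v ^ θ * Av v ≤
        g v ^ θ * ∑ w ∈ R.filter (fun w => g w ≤ g v), g w ^ (1 : ℝ) * ker e (a w - a v) +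
        ∑ w ∈ R.filter (fun w => g v ≤ g w), g v ^ θ * (g w * ker e (a w - a v)) := by
      intro v hv
      have hgv := hg v hv
      have h2 : Av v ≤ ∑ w ∈ R.filter (fun w => g w ≤ g v), g w * ker e (a w - a v) +
          ∑ w ∈ R.filter (fun w => g v ≤ g w), g w * ker e (a w - a v) := by
        simp only [hAv]
        rw [← sum_filter_add_sum_filter_not R (fun w => g w ≤ g v)]
        gcongr ?_ + ?_
        · exact le_rfl
        · apply sum_le_sum_of_subset_of_nonneg
          · intro w hw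
            rw [mem_filter] at hw ⊢
            exact ⟨hw.1, (not_le.1 hw.2).le⟩
          · intro w hw _
            exact mul_nonneg (hg w (mem_filter.1 hw).1).le (ker_nonneg _ _)
      calc g v ^ θ * Av v ≤ g v ^ θ * (∑ w ∈ R.filter (fun w => g w ≤ g v), g w * ker e (a w - a v) +
          ∑ w ∈ R.filter (fun w => g v ≤ g w), g w * ker e (a w - a v)) := by gcongr
        _ = _ := by
            rw [mul_add, mul_sum _ _ (g v ^ θ), mul_sum _ _ (g v ^ θ), mul_sum _ _ (g v ^ θ)]
            simp only [Real.rpow_one]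
    have h3 : ∑ v ∈ R, ∑ w ∈ R.filter (fun w => g v ≤ g w), g v ^ θ * (g w * ker e (a w - a v)) =
        ∑ w ∈ R, g w * ∑ v ∈ R.filter (fun v => g v ≤ g w), g v ^ θ * ker e (a v - a w) := by
      simp only [sum_filter, mul_sum]
      rw [sum_comm]
      refine sum_congr rfl fun w _ => sum_congr rfl fun v _ => ?_
      split_ifs
      · rw [← ker_neg e (a v - a w), neg_sub]; ring
      · simp
    have h4 : ∀ v ∈ R, g v ^ θ * ∑ w ∈ R.filter (fun w => g w ≤ g v), g w ^ (1 : ℝ) * ker e (a w - a v) ≤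
        K 1 * ((M : ℝ) ^ e * A ^ (1 - e)) * g v ^ r := by
      intro v hv
      have hgv := hg v hv
      have h5 := level_sum he0.le he hr0 hσ1 R a g hg M hM (a v) hgv
      calc _ ≤ g v ^ θ * (K 1 * ((M : ℝ) ^ e * A ^ (1 - e) * g v ^ (1 - r * (1 - e)))) := by
            gcongr
        _ = K 1 * ((M : ℝ) ^ e * A ^ (1 - e)) * (g v ^ θ * g v ^ (1 - r * (1 - e))) := by ring
        _ = _ := by
            rw [← Real.rpow_add hgv]
            congr 2
            linarith
    have h6 : ∀ w ∈ R, g w * ∑ v ∈ R.filter (fun v => g v ≤ g w), g v ^ θ * ker e (a v - a w) ≤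
        K θ * ((M : ℝ) ^ e * A ^ (1 - e)) * g w ^ r := by
      intro w hw
      have hgw := hg w hw
      have h5 := level_sum he0.le he hr0 hσθ R a g hg M hM (a w) hgw
      calc _ ≤ g w * (K θ * ((M : ℝ) ^ e * A ^ (1 - e) * g w ^ (θ - r * (1 - e)))) := by
            gcongr
        _ = K θ * ((M : ℝ) ^ e * A ^ (1 - e)) * (g w ^ (1 : ℝ) * g w ^ (θ - r * (1 - e))) := by
            rw [Real.rpow_one]; ring
        _ = _ := by
            rw [← Real.rpow_add hgw]
            congr 2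
            linarith
    calc ∑ v ∈ R, g v ^ θ * Av v ≤ _ := sum_le_sum h1
      _ = ∑ v ∈ R, g v ^ θ * ∑ w ∈ R.filter (fun w => g w ≤ g v), g w ^ (1 : ℝ) * ker e (a w - a v)
          + ∑ w ∈ R, g w * ∑ v ∈ R.filter (fun v => g v ≤ g w), g v ^ θ * ker e (a v - a w) := by
          rw [sum_add_distrib, h3]
      _ ≤ ∑ v ∈ R, K 1 * ((M : ℝ) ^ e * A ^ (1 - e)) * g v ^ r +
          ∑ w ∈ R, K θ * ((M : ℝ) ^ e * A ^ (1 - e)) * g w ^ r :=
          add_le_add (sum_le_sum h4) (sum_le_sum h6)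
      _ = (K 1 + K θ) * ((M : ℝ) ^ e * (A ^ (1 - e) * A)) := by
          rw [← mul_sum, ← mul_sum]; ring
      _ = _ := by
          congr 3
          nth_rewrite 2 [← Real.rpow_one A]
          rw [← Real.rpow_add hApos]
          congr 1; ring
  -- weighted Jensen
  have hJ : ∑ v ∈ R, g v * Av v ^ (q - 1) ≤ A ^ (2 - q) * (∑ v ∈ R, g v ^ θ * Av v) ^ (q - 1) := by
    have hp : 1 ≤ (q - 1)⁻¹ := (one_le_inv₀ hq0).2 (by linarith)
    have h1 := Real.inner_le_weight_mul_Lp_of_nonneg R hp (fun v => |g v| ^ r)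
      (fun v => (|g v| ^ (θ - r) * Av v) ^ (q - 1)) (fun v => by positivity)
      (fun v => by have := hAv0 v; positivity)
    have h2 : ∑ v ∈ R, |g v| ^ r * (|g v| ^ (θ - r) * Av v) ^ (q - 1) = ∑ v ∈ R, g v * Av v ^ (q - 1) := by
      refine sum_congr rfl fun v hv => ?_
      have hgv := hg v hv
      rw [abs_of_pos hgv, Real.mul_rpow (by positivity) (hAv0 v), ← mul_assoc,
        ← Real.rpow_mul hgv.le, ← Real.rpow_add hgv]
      have h3 : r + (θ - r) * (q - 1) = 1 := by
        rw [hθ, hr]; field_simp; rw [hD]; ring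
      rw [h3, Real.rpow_one]
    have h3 : ∑ v ∈ R, |g v| ^ r * ((|g v| ^ (θ - r) * Av v) ^ (q - 1)) ^ (q - 1)⁻¹ =
        ∑ v ∈ R, g v ^ θ * Av v := by
      refine sum_congr rfl fun v hv => ?_
      have hgv := hg v hv
      rw [Real.rpow_rpow_inv (by have := hAv0 v; positivity) hq0.ne', abs_of_pos hgv, ← mul_assoc,
        ← Real.rpow_add hgv]
      congr 2; ring
    have h4 : ∑ v ∈ R, |g v| ^ r = A := by
      refine sum_congr rfl fun v hv => ?_
      rw [abs_of_pos (hg v hv)]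
    rw [h2, h3, h4, inv_inv] at h1
    rw [show 2 - q = 1 - (q - 1) by ring]
    exact h1
  calc ∑ v ∈ R, g v * Av v ^ (q - 1) ≤ A ^ (2 - q) * (∑ v ∈ R, g v ^ θ * Av v) ^ (q - 1) := hJ
    _ ≤ A ^ (2 - q) * ((K 1 + K θ) * ((M : ℝ) ^ e * A ^ (2 - e))) ^ (q - 1) := by
        gcongr
        exact sum_nonneg fun v hv => mul_nonneg (by have := hg v hv; positivity) (hAv0 v)
    _ = (K 1 + K θ) ^ (q - 1) * ((M : ℝ) ^ (e * (q - 1)) * (A ^ (2 - q) * A ^ ((2 - e) * (q - 1)))) := by
        rw [Real.mul_rpow (by positivity) (by positivity), Real.mul_rpow (by positivity) (by positivity),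
          ← Real.rpow_mul (by positivity), ← Real.rpow_mul hA0]
        ring
    _ = _ := by
        rw [← Real.rpow_add hApos]
        congr 3
        rw [hD]; ring

end Pool.Agent.TH304.KF
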