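import Pool.Agent.TH304.KF.Claim

set_option autoImplicit false

/-!
# Families of tubes
-/

namespace Pool.Agent.TH304.KF

open MeasureTheory Set
open scoped ENNReal

/-- overlap of two lines on a bounded interval of heights -/
lemma overlap {L τ : ℝ} (hL : 0 ≤ L) (hτ : 0 ≤ τ) (v w : ℤ × ℤ) :
    ∫⁻ t, ov L v w t ∂(volume.restrict (Icc (-τ) τ)) ≤
      ENNReal.ofReal ((2 * τ + 8 * L) * (1 + |((w.1 - v.1 : ℤ) : ℝ)|)⁻¹) := by
  have hset : MeasurableSet {t : ℝ | |ln v t - ln w t| ≤ 2 * L} :=
    measurableSet_le (by have := measurable_ln v; have := measurable_ln w; fun_prop) (by fun_prop)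
  have h1 : (ov L v w) = {t : ℝ | |ln v t - ln w t| ≤ 2 * L}.indicator (fun _ => 1) := by
    funext t
    unfold ov
    rw [Set.indicator_apply]
    rfl
  have h2 : ∫⁻ t, ov L v w t ∂(volume.restrict (Icc (-τ) τ)) =
      volume ({t : ℝ | |ln v t - ln w t| ≤ 2 * L} ∩ Icc (-τ) τ) := by
    rw [h1, lintegral_indicator hset, lintegral_one, Measure.restrict_apply_univ,
      Measure.restrict_apply hset]
  rw [h2]
  rcases eq_or_ne v.1 w.1 with h | h
  · calc _ ≤ volume (Icc (-τ) τ) := measure_mono inter_subset_right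
      _ = ENNReal.ofReal (2 * τ) := by rw [Real.volume_Icc]; congr 1; ring
      _ ≤ _ := by
          apply ENNReal.ofReal_le_ofReal
          rw [h]; simp
          linarith
  · set α : ℝ := ((v.1 - w.1 : ℤ) : ℝ) with hα
    set β : ℝ := ((v.2 - w.2 : ℤ) : ℝ) with hβ
    have hα1 : 1 ≤ |α| := by
      rw [hα]
      have : (1 : ℤ) ≤ |v.1 - w.1| := Int.one_le_abs (sub_ne_zero.2 h)
      exact_mod_cast this
    have hα0 : 0 < |α| := by linarith
    have hne : α ≠ 0 := abs_pos.1 hα0
    have hln : ∀ t, ln v t - ln w t = β + t * α := by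
      intro t
      simp only [ln, hα, hβ]
      push_cast; ring
    have hsub : {t : ℝ | |ln v t - ln w t| ≤ 2 * L} ∩ Icc (-τ) τ ⊆
        Icc (-β / α - 2 * L / |α|) (-β / α + 2 * L / |α|) := by
      rintro t ⟨ht, _⟩
      simp only [mem_ofPred_eq, hln] at ht
      have e1 : |t + β / α| ≤ 2 * L / |α| := by
        rw [le_div_iff₀ hα0, ← abs_mul]
        have : (t + β / α) * α = β + t * α := by field_simp; ring
        rw [this]; exact ht
      have e2 := abs_le.1 e1
      rw [mem_Icc, neg_div]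
      constructor <;> linarith
    calc _ ≤ volume (Icc (-β / α - 2 * L / |α|) (-β / α + 2 * L / |α|)) := measure_mono hsub
      _ = ENNReal.ofReal (4 * L / |α|) := by rw [Real.volume_Icc]; congr 1; ring
      _ ≤ _ := by
          apply ENNReal.ofReal_le_ofReal
          have e3 : |((w.1 - v.1 : ℤ) : ℝ)| = |α| := by
            rw [hα, ← abs_neg]; push_cast; congr 1; ring
          rw [e3, div_le_iff₀ hα0]
          have e4 : (1 : ℝ) / 2 ≤ (1 + |α|)⁻¹ * |α| := by
            rw [inv_mul_eq_div, le_div_iff₀ (by linarith)]; linarith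
          calc 4 * L = 8 * L * (1 / 2) := by ring
            _ ≤ (2 * τ + 8 * L) * ((1 + |α|)⁻¹ * |α|) := by
                gcongr
                linarith
            _ = _ := by ring

/-- the explicit multiplicity condition implies the recursive one -/
lemma mult_of : ∀ (k : ℕ) (V : Finset (Fin k → ℤ × ℤ)) (M : Fin k → ℕ),
    (∀ (j : Fin k) (c : Fin k → ℤ × ℤ) (_ : c ∈ V) (z : ℤ), ∃ G : Finset ℤ, G.card ≤ M j ∧
      ∀ c' ∈ V, (∀ l, l < j → c' l = c l) → (c' j).1 = z → (c' j).2 ∈ G) → Mult k V M := by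
  intro k
  induction k with
  | zero => intro V M _; trivial
  | succ k ih =>
    intro V M h
    refine ⟨?_, ?_⟩
    · intro z
      rcases V.eq_empty_or_nonempty with hV | ⟨c, hc⟩
      · subst hV; simp [root]
      · obtain ⟨G, hG, hG2⟩ := h 0 c hc z
        refine le_trans (Finset.card_le_card_of_injOn (fun v => v.2) ?_ ?_) hG
        · intro v hv
          simp only [Finset.coe_filter, mem_ofPred_eq, root, Finset.mem_image] at hv
          obtain ⟨⟨c', hc', rfl⟩, hz⟩ := hv
          exact hG2 c' hc' (fun l hl => absurd hl (Fin.not_lt_zero l)) hz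
        · intro v hv w hw hvw
          simp only [Finset.coe_filter, mem_ofPred_eq] at hv hw
          exact Prod.ext (hv.2.trans hw.2.symm) hvw
    · intro v
      refine ih (fib V v) (fun j => M j.succ) ?_
      intro j c hc z
      obtain ⟨c1, hc1, hc10, hc1t⟩ := mem_fib.1 hc
      obtain ⟨G, hG, hG2⟩ := h j.succ c1 hc1 z
      refine ⟨G, hG, ?_⟩
      intro c' hc' hl hz
      obtain ⟨c2, hc2, hc20, hc2t⟩ := mem_fib.1 hc'
      have e1 : c' j = c2 j.succ := by rw [← hc2t]
      rw [e1] at hz ⊢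
      refine hG2 c2 hc2 ?_ hz
      intro l
      refine Fin.cases ?_ (fun l => ?_) l
      · intro _; rw [hc20, hc10]
      · intro hlt
        have h2 := hl l (Fin.succ_lt_succ_iff.1 hlt)
        rw [← hc2t, ← hc1t] at h2
        exact h2

variable {m : ℕ}

/-- the closed tube of length `1` and radius `δ` with centre `a` and direction `e` -/
def tube {n : ℕ} (δ : ℝ) (a e : EuclideanSpace ℝ (Fin n)) : Set (EuclideanSpace ℝ (Fin n)) :=
  {y | |inner ℝ (y - a) e| ≤ 1 / 2 ∧ ‖(y - a) - (inner ℝ (y - a) e) • e‖ ≤ δ}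

/-- the `j`-th slope of a line with direction `e` -/
noncomputable def slope (e : EuclideanSpace ℝ (Fin (m + 2))) (j : Fin (m + 1)) : ℝ :=
  e j.castSucc / e (Fin.last (m + 1))

/-- the `j`-th coordinate of the point of height `0` of the line through `a` with direction `e` -/
noncomputable def foot (a e : EuclideanSpace ℝ (Fin (m + 2))) (j : Fin (m + 1)) : ℝ :=
  a j.castSucc - a (Fin.last (m + 1)) * slope e j

/-- close slopes imply close directions -/
lemma dir_close {δ h : ℝ} (hhδ : ((m : ℝ) + 1) * h ^ 2 ≤ δ ^ 2) (hδ : 0 < δ)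
    (e e' : EuclideanSpace ℝ (Fin (m + 2))) (he : ‖e‖ = 1) (he' : ‖e'‖ = 1)
    (hp : 0 < e (Fin.last (m + 1))) (hp' : 0 < e' (Fin.last (m + 1)))
    (hs : ∀ j, |slope e j - slope e' j| < h) : ‖e - e'‖ < δ := by
  set s : ℝ := (e (Fin.last (m + 1)))⁻¹ with hsdef
  set s' : ℝ := (e' (Fin.last (m + 1)))⁻¹ with hsdef'
  have hcoord : ∀ (x : EuclideanSpace ℝ (Fin (m + 2))) i, |x i| ≤ ‖x‖ := by
    intro x i
    have := PiLp.norm_apply_le x i
    rwa [Real.norm_eq_abs] at this
  have hs1 : 1 ≤ s := by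
    rw [hsdef, one_le_inv₀ hp]
    have := hcoord e (Fin.last (m + 1))
    rw [he] at this
    exact (le_abs_self _).trans this
  have hs1' : 1 ≤ s' := by
    rw [hsdef', one_le_inv₀ hp']
    have := hcoord e' (Fin.last (m + 1))
    rw [he'] at this
    exact (le_abs_self _).trans this
  set u : ℝ := inner ℝ e e' with hu
  have hu1 : u ≤ 1 := by
    have := real_inner_le_norm e e'
    rw [he, he'] at this
    linarith
  have h1 : ‖e - e'‖ ^ 2 = 2 - 2 * u := by
    rw [norm_sub_sq_real, he, he']; ring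
  have h2 : ‖s • e - s' • e'‖ ^ 2 = s ^ 2 + s' ^ 2 - 2 * s * s' * u := by
    rw [norm_sub_sq_real, norm_smul, norm_smul, he, he', inner_smul_left, inner_smul_right]
    simp only [Real.norm_eq_abs, abs_of_pos (show 0 < s by linarith),
      abs_of_pos (show 0 < s' by linarith), conj_trivial]
    ring
  have h3 : ‖e - e'‖ ^ 2 ≤ ‖s • e - s' • e'‖ ^ 2 := by
    rw [h1, h2]
    nlinarith [sq_nonneg (s - s'), mul_nonneg (sub_nonneg.2 hu1)
      (show (0 : ℝ) ≤ s * s' - 1 by nlinarith)]
  have h4 : ‖s • e - s' • e'‖ ^ 2 < δ ^ 2 := by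
    rw [EuclideanSpace.norm_sq_eq, Fin.sum_univ_castSucc]
    have e1 : ∀ j : Fin (m + 1), (s • e - s' • e') j.castSucc = slope e j - slope e' j := by
      intro j
      simp only [PiLp.sub_apply, PiLp.smul_apply, smul_eq_mul, slope, hsdef, hsdef']
      ring
    have e2 : (s • e - s' • e') (Fin.last (m + 1)) = 0 := by
      simp only [PiLp.sub_apply, PiLp.smul_apply, smul_eq_mul, hsdef, hsdef']
      rw [inv_mul_cancel₀ hp.ne', inv_mul_cancel₀ hp'.ne', sub_self]
    rw [e2, norm_zero]
    have e3 : ∑ j : Fin (m + 1), ‖(s • e - s' • e') j.castSucc‖ ^ 2 < ((m : ℝ) + 1) * h ^ 2 := by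
      calc ∑ j : Fin (m + 1), ‖(s • e - s' • e') j.castSucc‖ ^ 2 < ∑ j : Fin (m + 1), h ^ 2 := by
            apply Finset.sum_lt_sum_of_nonempty Finset.univ_nonempty
            intro j _
            rw [e1 j, Real.norm_eq_abs]
            have := hs j
            have h0 := abs_nonneg (slope e j - slope e' j)
            gcongr
        _ = _ := by simp
    calc _ < ((m : ℝ) + 1) * h ^ 2 + 0 ^ 2 := by linarith
      _ ≤ δ ^ 2 := by linarith
  have h5 : ‖e - e'‖ ^ 2 < δ ^ 2 := lt_of_le_of_lt h3 h4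
  exact lt_of_pow_lt_pow_left₀ 2 hδ.le h5

/-- a point of a tube is close to the axis at the same height -/
lemma tube_close {δ c : ℝ} (hδ : 0 < δ) (hδ1 : δ < 1) (hc : 0 < c) (a e y : EuclideanSpace ℝ (Fin (m + 2)))
    (he : ‖e‖ = 1) (hce : c ≤ e (Fin.last (m + 1))) (hy : y ∈ tube δ a e) :
    (∀ j, |y j.castSucc - (foot a e j + y (Fin.last (m + 1)) * slope e j)| ≤ δ * (1 + 1 / c)) ∧
      |y (Fin.last (m + 1))| ≤ |a (Fin.last (m + 1))| + 3 / 2 := by
  obtain ⟨h1, h2⟩ := hy
  set s : ℝ := inner ℝ (y - a) e with hs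
  have hcoord : ∀ (x : EuclideanSpace ℝ (Fin (m + 2))) i, |x i| ≤ ‖x‖ := by
    intro x i
    have := PiLp.norm_apply_le x i
    rwa [Real.norm_eq_abs] at this
  have h3 : ∀ i, |y i - a i - s * e i| ≤ δ := by
    intro i
    have := hcoord ((y - a) - s • e) i
    simp only [PiLp.sub_apply, PiLp.smul_apply, smul_eq_mul] at this
    exact this.trans h2
  have hen : |e (Fin.last (m + 1))| ≤ 1 := by rw [← he]; exact hcoord _ _
  have hepos : 0 < e (Fin.last (m + 1)) := by linarith
  constructor
  · intro j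
    have hsl : |slope e j| ≤ 1 / c := by
      unfold slope
      rw [abs_div, abs_of_pos hepos]
      have hej : |e j.castSucc| ≤ 1 := by rw [← he]; exact hcoord _ _
      exact div_le_div₀ (by norm_num) hej hc hce
    have e1 : y j.castSucc - (foot a e j + y (Fin.last (m + 1)) * slope e j) =
        (y j.castSucc - a j.castSucc - s * e j.castSucc) -
        (y (Fin.last (m + 1)) - a (Fin.last (m + 1)) - s * e (Fin.last (m + 1))) * slope e j := by
      have e2 : e (Fin.last (m + 1)) * slope e j = e j.castSucc := by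
        unfold slope; field_simp
      unfold foot
      linear_combination (-s) * e2
    rw [e1]
    calc _ ≤ |y j.castSucc - a j.castSucc - s * e j.castSucc| +
          |(y (Fin.last (m + 1)) - a (Fin.last (m + 1)) - s * e (Fin.last (m + 1))) * slope e j| :=
          abs_sub _ _
      _ ≤ δ + δ * (1 / c) := by
          rw [abs_mul]
          have := h3 j.castSucc
          have := h3 (Fin.last (m + 1))
          gcongr
      _ = _ := by ring
  · have h4 := h3 (Fin.last (m + 1))
    have e1 : y (Fin.last (m + 1)) = (y (Fin.last (m + 1)) - a (Fin.last (m + 1)) -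
        s * e (Fin.last (m + 1))) + a (Fin.last (m + 1)) + s * e (Fin.last (m + 1)) := by ring
    have h5 : |s * e (Fin.last (m + 1))| ≤ 1 / 2 := by
      rw [abs_mul]
      calc |s| * |e (Fin.last (m + 1))| ≤ 1 / 2 * 1 := by gcongr
        _ = 1 / 2 := by ring
    rw [e1]
    calc _ ≤ |y (Fin.last (m + 1)) - a (Fin.last (m + 1)) - s * e (Fin.last (m + 1))| +
          |a (Fin.last (m + 1))| + |s * e (Fin.last (m + 1))| := abs_add_three _ _ _
      _ ≤ _ := by linarith

end Pool.Agent.TH304.KF
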